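import Pool.Graph.R_pool_sql_team_seeded_63374d34.N799.OL.Core
import Pool.Graph.R_pool_sql_team_seeded_63374d34.N799.OL.Fin
import Pool.Graph.R_pool_sql_team_seeded_63374d34.N799.OL.Lazy

/-!
# The core inequality for pairs of cosets which are joined by few matrices
-/

set_option autoImplicit false

open UpperHalfPlane MeasureTheory Metric ModularGroup CongruenceSubgroup
open scoped MatrixGroups ENNReal Modular Topology NNReal ComplexConjugate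

namespace Pool.Agent.H382.SA

open Pool.Agent.H369R2 Pool.Agent.N799.DT Pool.Agent.N799.OL

noncomputable section

/-- the number of the elements of the coset `x` which carry `z` into the ball of radius `ρ` -/
def cnt (Γ : Subgroup SL(2, ℤ)) (ρ : ℝ) (x : SL(2, ℤ) ⧸ Γ) (z : ℍ) : ℕ :=
  {g : SL(2, ℤ) | (g : SL(2, ℤ) ⧸ Γ) = x ∧ dist (g • z) z0 ≤ ρ}.ncard

/-- the number of the matrices of size `ρ` which carry `x` to `y` -/
def num (Γ : Subgroup SL(2, ℤ)) (ρ : ℝ) (x y : SL(2, ℤ) ⧸ Γ) : ℕ :=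
  {γ : SL(2, ℤ) | γ • x = y ∧ dist (γ • z0) z0 ≤ ρ}.ncard

lemma finite_at (z : ℍ) (ρ : ℝ) : {g : SL(2, ℤ) | dist (g • z) z0 ≤ ρ}.Finite := by
  refine (FinAux.finite_dist (ρ + dist z z0)).subset ?_
  intro g hg
  have hg' : dist (g • z) z0 ≤ ρ := hg
  show dist (g • z0) z0 ≤ _
  have h1 := dist_triangle (g • z0) (g • z) z0
  rw [dist_smul_int, dist_comm z0 z] at h1
  linarith

lemma finite_cnt (Γ : Subgroup SL(2, ℤ)) (ρ : ℝ) (x : SL(2, ℤ) ⧸ Γ) (z : ℍ) :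
    {g : SL(2, ℤ) | (g : SL(2, ℤ) ⧸ Γ) = x ∧ dist (g • z) z0 ≤ ρ}.Finite :=
  (finite_at z ρ).subset fun _ h => h.2

lemma finite_num (Γ : Subgroup SL(2, ℤ)) (ρ : ℝ) (x y : SL(2, ℤ) ⧸ Γ) :
    {γ : SL(2, ℤ) | γ • x = y ∧ dist (γ • z0) z0 ≤ ρ}.Finite :=
  (finite_at z0 ρ).subset fun _ h => h.2

lemma cnt_mono (Γ : Subgroup SL(2, ℤ)) {ρ d : ℝ} (x : SL(2, ℤ) ⧸ Γ) {z w : ℍ}
    (h : dist z w ≤ d) : cnt Γ ρ x w ≤ cnt Γ (ρ + d) x z := by
  refine Set.ncard_le_ncard ?_ (finite_cnt Γ _ x z)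
  rintro g ⟨h1, h2⟩
  refine ⟨h1, ?_⟩
  have h3 := dist_triangle (g • z) (g • w) z0
  rw [dist_smul_int] at h3
  linarith

lemma uf_le_cnt (Γ : Subgroup SL(2, ℤ)) (R : ℝ) (x : SL(2, ℤ) ⧸ Γ) (z : ℍ) :
    uf Γ R x z ≤ cnt Γ R x z * (ENNReal.ofReal (bv R))⁻¹ := by
  classical
  unfold uf
  have h1 : ∑' g : {g : SL(2, ℤ) // (g : SL(2, ℤ) ⧸ Γ) = x}, bz R z0 ((g : SL(2, ℤ)) • z) =
      ∑' g : SL(2, ℤ), {g : SL(2, ℤ) | (g : SL(2, ℤ) ⧸ Γ) = x}.indicator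
        (fun g => bz R z0 (g • z)) g :=
    tsum_subtype {g : SL(2, ℤ) | (g : SL(2, ℤ) ⧸ Γ) = x} (fun g => bz R z0 (g • z))
  have hf := finite_cnt Γ R x z
  rw [h1]
  have h2 : ∑' g : SL(2, ℤ), {g : SL(2, ℤ) | (g : SL(2, ℤ) ⧸ Γ) = x}.indicator
        (fun g => bz R z0 (g • z)) g = ∑ g ∈ hf.toFinset,
        {g : SL(2, ℤ) | (g : SL(2, ℤ) ⧸ Γ) = x}.indicator (fun g => bz R z0 (g • z)) g := by
    refine tsum_eq_sum fun g hg => ?_
    by_cases h3 : (g : SL(2, ℤ) ⧸ Γ) = x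
    · rw [Set.indicator_of_mem (show g ∈ {g : SL(2, ℤ) | (g : SL(2, ℤ) ⧸ Γ) = x} from h3)]
      unfold bz
      rw [Set.indicator_of_notMem, mul_zero]
      intro h4
      exact hg (hf.mem_toFinset.2 ⟨h3, h4⟩)
    · rw [Set.indicator_of_notMem (show g ∉ {g : SL(2, ℤ) | (g : SL(2, ℤ) ⧸ Γ) = x} from h3)]
  rw [h2]
  have h3 : ∀ g ∈ hf.toFinset, {g : SL(2, ℤ) | (g : SL(2, ℤ) ⧸ Γ) = x}.indicator
      (fun g => bz R z0 (g • z)) g ≤ (ENNReal.ofReal (bv R))⁻¹ := by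
    intro g _
    refine (Set.indicator_le_self' (fun _ _ => zero_le) _).trans ?_
    show bz R z0 (g • z) ≤ _
    unfold bz
    refine (mul_le_mul_right (Set.indicator_le_self' (fun _ _ => zero_le) _) _).trans ?_
    simp
  refine (Finset.sum_le_card_nsmul _ _ _ h3).trans ?_
  rw [nsmul_eq_mul]
  unfold cnt
  rw [Set.ncard_eq_toFinset_card _ hf]

lemma norm_Av_le' {R : ℝ} {f : ℍ → ℂ} {C : ℝ} (z : ℍ) (hC : ∀ w, dist w z ≤ R → ‖f w‖ ≤ C)
    (hC0 : 0 ≤ C) : ‖Av R f z‖ ≤ C := by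
  unfold Av
  rw [norm_smul]
  have h1 : ‖∫ w in closedBall z R, f w‖ ≤ C * bv R := by
    have := norm_setIntegral_le_of_norm_le_const (f := f) (s := closedBall z R) (C := C)
      (μ := volume) (vol_ball_ne_top R z).lt_top (fun w hw => hC w (mem_closedBall.1 hw))
    refine this.trans_eq ?_
    rw [Measure.real, vol_eq, ENNReal.toReal_ofReal (bv_nonneg R)]
  rw [norm_inv, Real.norm_of_nonneg (bv_nonneg R)]
  rcases (bv_nonneg R).eq_or_lt with h | h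
  · rw [← h]; simpa using hC0
  · rw [inv_mul_le_iff₀ h]; linarith

/-- the pointwise bound for the iterates -/
lemma Lpow_le {N : ℕ} {Γ : Subgroup SL(2, ℤ)} {R : ℝ} (hR : 0 < R) {x : SL(2, ℤ) ⧸ Γ} {u : BN N}
    (hu : ∀ z, (u : ℍ → ℂ) z = (((uf Γ R x z).toReal : ℝ) : ℂ)) (k : ℕ) :
    ∀ z, ‖((Lz N ^ k) u : ℍ → ℂ) z‖ ≤ (bv R)⁻¹ * cnt Γ (R + 250 * k) x z := by
  have hb := bv_pos hR
  have hmono : ∀ (a b : ℕ), a ≤ b → (bv R)⁻¹ * (a : ℝ) ≤ (bv R)⁻¹ * b := fun a b h =>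
    mul_le_mul_of_nonneg_left (by exact_mod_cast h) (inv_nonneg.2 hb.le)
  induction k with
  | zero =>
    intro z
    rw [pow_zero, Nat.cast_zero, mul_zero, add_zero]
    show ‖(u : ℍ → ℂ) z‖ ≤ _
    rw [hu, Complex.norm_real, Real.norm_of_nonneg ENNReal.toReal_nonneg]
    have h1 := uf_le_cnt Γ R x z
    have h2 : (cnt Γ R x z : ℝ≥0∞) * (ENNReal.ofReal (bv R))⁻¹ ≠ ∞ :=
      ENNReal.mul_ne_top (ENNReal.natCast_ne_top _)
        (ENNReal.inv_ne_top.2 (ENNReal.ofReal_pos.2 hb).ne')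
    have h3 := ENNReal.toReal_mono h2 h1
    rw [ENNReal.toReal_mul, ENNReal.toReal_inv, ENNReal.toReal_ofReal hb.le,
      ENNReal.toReal_natCast, mul_comm] at h3
    exact h3
  | succ k ih =>
    intro z
    rw [pow_succ']
    show ‖((Lz N ((Lz N ^ k) u) : BN N) : ℍ → ℂ) z‖ ≤ _
    rw [Lazy.Lz_apply]
    set D : ℝ := (bv R)⁻¹ * cnt Γ (R + 250 * ((k + 1 : ℕ) : ℝ)) x z with hD
    have hD0 : 0 ≤ D := by positivity
    have h0 : ∀ w, dist w z ≤ 250 → ‖((Lz N ^ k) u : ℍ → ℂ) w‖ ≤ D := by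
      intro w hw
      refine (ih w).trans (hmono _ _ ?_)
      have h1 := cnt_mono Γ (ρ := R + 250 * k) (d := 250) x (z := z) (w := w)
        (by rw [dist_comm]; exact hw)
      have e : R + 250 * (k : ℝ) + 250 = R + 250 * ((k + 1 : ℕ) : ℝ) := by push_cast; ring
      rwa [e] at h1
    have h1 := h0 z (by rw [dist_self]; norm_num)
    have h2 := norm_Av_le' z h0 hD0
    rw [norm_mul]
    have h3 : ‖(2⁻¹ : ℂ)‖ = 2⁻¹ := by rw [norm_inv]; norm_num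
    rw [h3]
    have h4 := norm_add_le (((Lz N ^ k) u : ℍ → ℂ) z) (Av 250 ((Lz N ^ k) u : ℍ → ℂ) z)
    linarith

/-- few matrices, small inner product -/
lemma near {N : ℕ} [NeZero N] {Γ : Subgroup SL(2, ℤ)} {R : ℝ} (hR : 0 < R) {k : ℕ}
    {x y : SL(2, ℤ) ⧸ Γ} {u b : BN N} (hu : ∀ z, (u : ℍ → ℂ) z = (((uf Γ R x z).toReal : ℝ) : ℂ))
    (hb : ∀ z, (b : ℍ → ℂ) z = (((uf Γ 1 y z).toReal : ℝ) : ℂ)) {r : ℝ}
    (hint : ∫ z, (b : ℍ → ℂ) z ∂(nu N) = ((2 * r : ℝ) : ℂ)) :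
    ‖inner ℂ b ((Lz N ^ k) u)‖ ≤ (bv R)⁻¹ * num Γ (R + 250 * k + 1) x y * (2 * r) := by
  have hbv := bv_pos hR
  set M : ℝ := (bv R)⁻¹ * num Γ (R + 250 * k + 1) x y with hM
  have hM0 : 0 ≤ M := by positivity
  have hint' : ∫ z, (uf Γ 1 y z).toReal ∂(nu N) = 2 * r := by
    have h1 : ∫ z, (b : ℍ → ℂ) z ∂(nu N) = ((∫ z, (uf Γ 1 y z).toReal ∂(nu N) : ℝ) : ℂ) := by
      rw [← integral_complex_ofReal]
      exact integral_congr_ae (.of_forall fun z => hb z)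
    rw [h1] at hint
    exact_mod_cast hint
  have hβ : ∀ z, (uf Γ 1 y z).toReal = ((b : ℍ → ℂ) z).re := fun z => by
    rw [hb z, Complex.ofReal_re]
  have hβm : Measurable fun z => (uf Γ 1 y z).toReal := by
    have : (fun z => (uf Γ 1 y z).toReal) = fun z => ((b : ℍ → ℂ) z).re := funext hβ
    rw [this]
    exact Complex.measurable_re.comp (BN.meas b)
  obtain ⟨Cb, hCb⟩ := BN.bdd b
  obtain ⟨Cu, hCu⟩ := BN.bdd ((Lz N ^ k) u)
  have hβb : ∀ z, |(uf Γ 1 y z).toReal| ≤ Cb := fun z => by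
    rw [hβ]
    exact (Complex.abs_re_le_norm _).trans (hCb z)
  have hi0 : Integrable (fun z => (uf Γ 1 y z).toReal) (nu N) :=
    Integrable.of_bound (C := Cb) hβm.aestronglyMeasurable (.of_forall hβb)
  have hum : Measurable fun z => ‖((Lz N ^ k) u : ℍ → ℂ) z‖ := (BN.meas _).norm
  have hi1 : Integrable (fun z => (uf Γ 1 y z).toReal * ‖((Lz N ^ k) u : ℍ → ℂ) z‖) (nu N) := by
    refine Integrable.of_bound (C := Cb * Cu) (hβm.mul hum).aestronglyMeasurable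
      (.of_forall fun z => ?_)
    rw [norm_mul, norm_norm]
    exact mul_le_mul (hβb z) (hCu z) (norm_nonneg _) ((abs_nonneg _).trans (hβb z))
  have hpt : ∀ z, (uf Γ 1 y z).toReal * ‖((Lz N ^ k) u : ℍ → ℂ) z‖ ≤
      (uf Γ 1 y z).toReal * M := by
    intro z
    by_cases h0 : uf Γ 1 y z = 0
    · rw [h0]; simp
    obtain ⟨h, hh, hd⟩ := uf_ne_zero h0
    refine mul_le_mul_of_nonneg_left ?_ ENNReal.toReal_nonneg
    refine (Lpow_le hR hu k z).trans ?_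
    rw [hM]
    refine mul_le_mul_of_nonneg_left ?_ (inv_nonneg.2 hbv.le)
    have h1 : cnt Γ (R + 250 * k) x z ≤ num Γ (R + 250 * k + 1) x y := by
      unfold cnt num
      refine Set.ncard_le_ncard_of_injOn (fun g => h * g⁻¹) ?_ ?_ (finite_num Γ _ x y)
      · rintro g ⟨hg1, hg2⟩
        refine ⟨?_, ?_⟩
        · show (h * g⁻¹) • x = y
          rw [← hg1, ← hh, MulAction.Quotient.smul_coe, smul_eq_mul, inv_mul_cancel_right]
        · show dist ((h * g⁻¹) • z0) z0 ≤ _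
          calc dist ((h * g⁻¹) • z0) z0
              ≤ dist ((h * g⁻¹) • z0) ((h * g⁻¹) • (g • z)) + dist ((h * g⁻¹) • (g • z)) z0 :=
                dist_triangle _ _ _
            _ = dist z0 (g • z) + dist (h • z) z0 := by
                rw [dist_smul_int, ← mul_smul, inv_mul_cancel_right]
            _ ≤ (R + 250 * k) + 1 := by
                gcongr
                rw [dist_comm]
                exact hg2
      · intro g _ g' _ hgg
        have : h * g⁻¹ = h * g'⁻¹ := hgg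
        exact inv_injective (mul_left_cancel this)
    exact_mod_cast h1
  rw [BN.inner_def]
  calc ‖∫ z, conj ((b : ℍ → ℂ) z) * ((Lz N ^ k) u : ℍ → ℂ) z ∂(nu N)‖
      ≤ ∫ z, ‖conj ((b : ℍ → ℂ) z) * ((Lz N ^ k) u : ℍ → ℂ) z‖ ∂(nu N) :=
        norm_integral_le_integral_norm _
    _ = ∫ z, (uf Γ 1 y z).toReal * ‖((Lz N ^ k) u : ℍ → ℂ) z‖ ∂(nu N) := by
        refine integral_congr_ae (.of_forall fun z => ?_)
        simp only [norm_mul, RCLike.norm_conj]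
        rw [hb z, Complex.norm_real, Real.norm_of_nonneg ENNReal.toReal_nonneg]
    _ ≤ ∫ z, (uf Γ 1 y z).toReal * M ∂(nu N) :=
        integral_mono hi1 (hi0.mul_const M) hpt
    _ = M * (2 * r) := by
        rw [integral_mul_const, hint']
        ring

/-- the core inequality -/
theorem core' (hbdd : S_bdd) (hone : S_one) (htwo : S_two)
    {C : ℝ} (hC : 0 < C) {κ : ℝ} (hκ : 0 < κ) (hκ1 : κ < 1)
    (hbes : ∀ (N : ℕ) (_ : NeZero N) (Γ : Subgroup SL(2, ℤ)), Gamma N ≤ Γ →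
      ∀ b : SL(2, ℤ) ⧸ Γ → BN N,
        (∀ y z, uf Γ 1 y z ≠ ∞ ∧ (b y : ℍ → ℂ) z = (((uf Γ 1 y z).toReal : ℝ) : ℂ)) →
        ∀ (u : BN N) (s : Finset (SL(2, ℤ) ⧸ Γ)),
          ∑ y ∈ s, ‖inner ℂ (b y) u‖ ^ 2 ≤ C * ((Gamma N).relIndex Γ : ℝ) * ‖u‖ ^ 2)
    (hcon : ∀ (N : ℕ) (_ : NeZero N) (u : BN N) (k : ℕ), ∫ z, (u : ℍ → ℂ) z ∂(nu N) = 0 →
      ∫ z, (((Lz N) ^ k) u : ℍ → ℂ) z ∂(nu N) = 0 ∧
      ‖((Lz N) ^ k) u‖ ^ 2 ≤ (1 - κ) ^ k * ‖u‖ ^ 2)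
    {N : ℕ} (hN : 0 < N) {Γ : Subgroup SL(2, ℤ)} (hΓ : Gamma N ≤ Γ) {R : ℝ} (hR : 0 < R) (k : ℕ)
    {T : ℝ} (hT : 0 ≤ T)
    (hgeo : ∑' δ : SL(2, ℤ), (fix Γ δ : ℝ≥0∞) * kk R 1 (δ • z0) z0 ≤ ENNReal.ofReal T)
    (B : Finset ((SL(2, ℤ) ⧸ Γ) × (SL(2, ℤ) ⧸ Γ)))
    (hB : ∀ p ∈ B, (num Γ (R + 250 * k + 1) p.1 p.2 : ℝ) ≤
      bv R / ((Γ.index : ℝ) * (volume (𝒟ᵒ : Set ℍ)).toReal)) :
    (B.card : ℝ) ≤ C * (volume (𝒟ᵒ : Set ℍ)).toReal ^ 2 * (Γ.index : ℝ) ^ 2 * (1 - κ) ^ k * T := by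
  classical
  have hNz : NeZero N := ⟨hN.ne'⟩
  have hfi : Γ.FiniteIndex := Subgroup.finiteIndex_of_le hΓ
  have hfin : Finite (SL(2, ℤ) ⧸ Γ) := Subgroup.finite_quotient_of_finiteIndex
  have hft : Fintype (SL(2, ℤ) ⧸ Γ) := Fintype.ofFinite _
  have hbv := bv_pos hR
  choose b hb using hbdd N hN Γ hΓ 1 one_pos
  choose u hu using hbdd N hN Γ hΓ R hR
  set r : ℝ := ((Gamma N).relIndex Γ : ℝ) with hr
  set n : ℝ := (Γ.index : ℝ) with hn
  set V : ℝ := (volume (𝒟ᵒ : Set ℍ)).toReal with hV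
  have hn1 : 0 < n := by
    rw [hn]; exact_mod_cast Nat.pos_of_ne_zero hfi.index_ne_zero
  have hidx : (Gamma N).relIndex Γ * Γ.index = (Gamma N).index := Subgroup.relIndex_mul_index hΓ
  have hr1 : 0 < r := by
    rw [hr]
    have : (Gamma N).index ≠ 0 := Subgroup.FiniteIndex.index_ne_zero
    rw [← hidx] at this
    exact_mod_cast Nat.pos_of_ne_zero (left_ne_zero_of_mul this)
  have hV1 : 0 < V := by
    rw [hV]
    exact ENNReal.toReal_pos volume_fdo.2 volume_fdo.1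
  -- masses
  have hint : ∀ (ρ : ℝ) (_ : 0 < ρ) (x : SL(2, ℤ) ⧸ Γ) (v : BN N),
      (∀ z, uf Γ ρ x z ≠ ∞ ∧ (v : ℍ → ℂ) z = (((uf Γ ρ x z).toReal : ℝ) : ℂ)) →
      ∫ z, (v : ℍ → ℂ) z ∂(nu N) = ((2 * r : ℝ) : ℂ) := by
    intro ρ hρ x v hv
    have h1 : ∫ z, (v : ℍ → ℂ) z ∂(nu N) = ((∫ z, (uf Γ ρ x z).toReal ∂(nu N) : ℝ) : ℂ) := by
      rw [← integral_complex_ofReal]
      exact integral_congr_ae (.of_forall fun z => (hv z).2)
    have h2 : Measurable (uf Γ ρ x) := by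
      have h3 : uf Γ ρ x = fun z => ENNReal.ofReal ((v : ℍ → ℂ) z).re := by
        ext z
        rw [(hv z).2, Complex.ofReal_re, ENNReal.ofReal_toReal (hv z).1]
      rw [h3]
      exact ENNReal.measurable_ofReal.comp (Complex.measurable_re.comp (BN.meas v))
    rw [h1, integral_toReal h2.aemeasurable (.of_forall fun z => (hv z).1.lt_top),
      hone N hN Γ hΓ ρ hρ x]
    simp [hr]
  have hM : ((nu N) Set.univ).toReal = n * r * V := by
    rw [nu_univ N hN.ne', ENNReal.toReal_mul, ← hidx]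
    push_cast
    rw [ENNReal.toReal_mul, ENNReal.toReal_natCast, ENNReal.toReal_natCast]
    ring
  have honeint : ∫ z, ((oneB N : BN N) : ℍ → ℂ) z ∂(nu N) = ((n * r * V : ℝ) : ℂ) := by
    show ∫ z : ℍ, (1 : ℂ) ∂(nu N) = _
    rw [integral_const, Measure.real, hM]
    simp
  set m : ℂ := ((2 / (n * V) : ℝ) : ℂ) with hm
  -- the mean free parts
  have hmean : ∀ x, ∫ z, ((u x - m • oneB N : BN N) : ℍ → ℂ) z ∂(nu N) = 0 := by
    intro x
    have h1 : ∀ z, ((u x - m • oneB N : BN N) : ℍ → ℂ) z =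
        (u x : ℍ → ℂ) z - m * ((oneB N : BN N) : ℍ → ℂ) z := fun z => rfl
    simp only [h1]
    rw [integral_sub (BN.integrable _) ((BN.integrable _).const_mul m), integral_const_mul,
      hint R hR x (u x) (hu x), honeint, hm, ← Complex.ofReal_mul, ← Complex.ofReal_sub]
    norm_cast
    field_simp
    ring
  have hinner1 : ∀ v : BN N, inner ℂ (oneB N) v = ∫ z, (v : ℍ → ℂ) z ∂(nu N) := by
    intro v
    rw [BN.inner_def]
    refine integral_congr_ae (.of_forall fun z => ?_)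
    show conj (1 : ℂ) * (v : ℍ → ℂ) z = _
    simp
  have hnorm : ∀ x, ‖u x - m • oneB N‖ ^ 2 ≤ ‖u x‖ ^ 2 := fun x =>
    proj_norm (u x) m (by rw [hinner1, hmean x])
  -- the second moment
  have hsum2 : ∑ x, ‖u x‖ ^ 2 ≤ 2 * r * T := by
    have h1 : ∀ x, ENNReal.ofReal (‖u x‖ ^ 2) = ∫⁻ z, (uf Γ R x z) ^ 2 ∂(nu N) := by
      intro x
      rw [BN.norm_sq, ofReal_integral_eq_lintegral_ofReal (OpAux.BR_norm_sq (u x)).integrable
        (.of_forall fun z => by positivity)]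
      refine lintegral_congr fun z => ?_
      rw [(hu x z).2, Complex.norm_real, Real.norm_of_nonneg ENNReal.toReal_nonneg,
        ENNReal.ofReal_pow ENNReal.toReal_nonneg, ENNReal.ofReal_toReal (hu x z).1]
    have h2 := htwo N hN Γ hΓ R hR
    rw [tsum_fintype, ← Finset.sum_congr rfl fun x _ => h1 x,
      ← ENNReal.ofReal_sum_of_nonneg fun x _ => by positivity] at h2
    have h3 : ENNReal.ofReal (∑ x, ‖u x‖ ^ 2) ≤ ENNReal.ofReal (2 * r * T) := by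
      rw [h2, ENNReal.ofReal_mul (by positivity), ENNReal.ofReal_mul (by norm_num)]
      gcongr
      · simp
      · rw [hr, ENNReal.ofReal_natCast]
    exact (ENNReal.ofReal_le_ofReal_iff (by positivity)).1 h3
  -- the bad pairs
  have hbad : ∀ p ∈ B, (2 * r / (n * V)) ^ 2 ≤
      ‖inner ℂ (b p.2) ((Lz N ^ k) (u p.1 - m • oneB N))‖ ^ 2 := by
    intro p hp
    have h1 : (Lz N ^ k) (u p.1 - m • oneB N) = (Lz N ^ k) (u p.1) - m • oneB N := by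
      rw [map_sub, map_smul, Lz_pow_one]
    have h2 : inner ℂ (b p.2) (oneB N) = ((2 * r : ℝ) : ℂ) := by
      rw [← inner_conj_symm, hinner1, hint 1 one_pos p.2 (b p.2) (hb p.2), Complex.conj_ofReal]
    have h3 := near (N := N) hR (k := k) (fun z => (hu p.1 z).2) (fun z => (hb p.2 z).2)
      (hint 1 one_pos p.2 (b p.2) (hb p.2))
    have h4 : (bv R)⁻¹ * (num Γ (R + 250 * k + 1) p.1 p.2 : ℝ) * (2 * r) ≤ 2 * r / (n * V) := by
      have h5 := hB p hp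
      have h6 : (bv R)⁻¹ * (num Γ (R + 250 * k + 1) p.1 p.2 : ℝ) ≤ 1 / (n * V) := by
        calc (bv R)⁻¹ * (num Γ (R + 250 * k + 1) p.1 p.2 : ℝ)
            ≤ (bv R)⁻¹ * (bv R / (n * V)) := mul_le_mul_of_nonneg_left h5 (inv_nonneg.2 hbv.le)
          _ = 1 / (n * V) := by field_simp
      calc (bv R)⁻¹ * (num Γ (R + 250 * k + 1) p.1 p.2 : ℝ) * (2 * r)
          ≤ 1 / (n * V) * (2 * r) := mul_le_mul_of_nonneg_right h6 (by positivity)
        _ = 2 * r / (n * V) := by ring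
    have h7 : ‖inner ℂ (b p.2) (m • oneB N)‖ = 4 * r / (n * V) := by
      rw [inner_smul_right, norm_mul, h2, hm, Complex.norm_real, Complex.norm_real,
        Real.norm_of_nonneg (by positivity), Real.norm_of_nonneg (by positivity)]
      field_simp
      ring
    have h8 := norm_sub_norm_le (inner ℂ (b p.2) (m • oneB N))
      (inner ℂ (b p.2) ((Lz N ^ k) (u p.1)))
    rw [h7, norm_sub_rev] at h8
    rw [h1, inner_sub_right]
    have h9 : 4 * r / (n * V) = 2 * r / (n * V) + 2 * r / (n * V) := by ring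
    refine pow_le_pow_left₀ (by positivity) ?_ 2
    linarith
  have hmain : (B.card : ℝ) * (2 * r / (n * V)) ^ 2 ≤ C * r * ((1 - κ) ^ k * (2 * r * T)) := by
    calc (B.card : ℝ) * (2 * r / (n * V)) ^ 2
        = ∑ _p ∈ B, (2 * r / (n * V)) ^ 2 := by
          rw [Finset.sum_const, nsmul_eq_mul]
      _ ≤ ∑ p ∈ B, ‖inner ℂ (b p.2) ((Lz N ^ k) (u p.1 - m • oneB N))‖ ^ 2 :=
          Finset.sum_le_sum hbad
      _ ≤ ∑ p : (SL(2, ℤ) ⧸ Γ) × (SL(2, ℤ) ⧸ Γ),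
            ‖inner ℂ (b p.2) ((Lz N ^ k) (u p.1 - m • oneB N))‖ ^ 2 :=
          Finset.sum_le_sum_of_subset_of_nonneg (Finset.subset_univ _) fun p _ _ => by positivity
      _ = ∑ x, ∑ y, ‖inner ℂ (b y) ((Lz N ^ k) (u x - m • oneB N))‖ ^ 2 :=
          Fintype.sum_prod_type _
      _ ≤ ∑ x, C * r * ((1 - κ) ^ k * ‖u x‖ ^ 2) := by
          refine Finset.sum_le_sum fun x _ => ?_
          refine (hbes N hNz Γ hΓ b hb _ Finset.univ).trans ?_
          have h1 := (hcon N hNz (u x - m • oneB N) k (hmean x)).2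
          have h2 : (0 : ℝ) ≤ (1 - κ) ^ k := pow_nonneg (by linarith) _
          apply mul_le_mul_of_nonneg_left _ (by positivity)
          exact h1.trans (mul_le_mul_of_nonneg_left (hnorm x) h2)
      _ = C * r * ((1 - κ) ^ k * ∑ x, ‖u x‖ ^ 2) := by
          rw [Finset.mul_sum, Finset.mul_sum]
      _ ≤ C * r * ((1 - κ) ^ k * (2 * r * T)) := by
          have h2 : (0 : ℝ) ≤ (1 - κ) ^ k := pow_nonneg (by linarith) _
          gcongr
  have h2 : (0 : ℝ) ≤ (1 - κ) ^ k := pow_nonneg (by linarith) _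
  have h3 : (B.card : ℝ) * 4 ≤ 2 * (C * V ^ 2 * n ^ 2 * (1 - κ) ^ k * T) := by
    have h4 : (2 * r / (n * V)) ^ 2 = 4 * r ^ 2 / (n ^ 2 * V ^ 2) := by
      rw [div_pow, mul_pow, mul_pow]; norm_num
    rw [h4, ← mul_div_assoc, div_le_iff₀ (by positivity)] at hmain
    have h5 : (B.card : ℝ) * 4 * r ^ 2 ≤ 2 * (C * V ^ 2 * n ^ 2 * (1 - κ) ^ k * T) * r ^ 2 := by
      calc (B.card : ℝ) * 4 * r ^ 2 = (B.card : ℝ) * (4 * r ^ 2) := by ring
        _ ≤ C * r * ((1 - κ) ^ k * (2 * r * T)) * (n ^ 2 * V ^ 2) := hmain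
        _ = _ := by ring
    exact le_of_mul_le_mul_right h5 (by positivity)
  have h6 : 0 ≤ C * V ^ 2 * n ^ 2 * (1 - κ) ^ k * T := by positivity
  have h7 : (0 : ℝ) ≤ B.card := Nat.cast_nonneg _
  linarith

end

end Pool.Agent.H382.SA
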