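import Pool.Agent.H382.SA.Low

/-!
# Any two cosets are joined by a matrix of size `n ^ (1 + η)`
-/

set_option autoImplicit false

open ModularGroup CongruenceSubgroup
open scoped MatrixGroups Pointwise

namespace Pool.Agent.H382.SA

open Pool.Agent.N799.DT Pool.Agent.N799.OL

section reach

variable {G X : Type*} [Group G] [Fintype X] [DecidableEq X] [DecidableEq G] [MulAction G X]
  [MulAction.IsPretransitive G X]

lemma stable_univ (A : Finset G) (hclo : Subgroup.closure (A : Set G) = ⊤)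
    (hinv : ∀ a ∈ A, a⁻¹ ∈ A) (s : Finset X) (hs : s.Nonempty) (h : ∀ a ∈ A, ∀ x ∈ s, a • x ∈ s) :
    s = Finset.univ := by
  have key : ∀ g : G, ∀ x ∈ s, g • x ∈ s := by
    intro g
    have hg : g ∈ Subgroup.closure (A : Set G) := by rw [hclo]; trivial
    induction hg using Subgroup.closure_induction'' with
    | mem a ha => exact h a ha
    | inv_mem a ha => exact h a⁻¹ (hinv a ha)
    | one => intro x hx; rwa [one_smul]
    | mul a b _ _ h1 h2 => intro x hx; rw [mul_smul]; exact h1 _ (h2 x hx)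
  obtain ⟨x, hx⟩ := hs
  rw [Finset.eq_univ_iff_forall]
  intro y
  obtain ⟨g, rfl⟩ := MulAction.exists_smul_eq G x y
  exact key g x hx

lemma reach (A : Finset G) (h1 : 1 ∈ A) (hclo : Subgroup.closure (A : Set G) = ⊤)
    (hinv : ∀ a ∈ A, a⁻¹ ∈ A) (x : X) (m : ℕ) :
    m + 1 ≤ ((A ^ m).image (· • x)).card ∨ (A ^ m).image (· • x) = (Finset.univ : Finset X) := by
  have hsub : ∀ m, (A ^ m).image (· • x) ⊆ (A ^ (m + 1)).image (· • x) := by
    intro m
    apply Finset.image_subset_image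
    intro g hg
    rw [pow_succ]
    have := Finset.mul_mem_mul hg h1
    rwa [mul_one] at this
  induction m with
  | zero => left; simp
  | succ m ih =>
    rcases ih with h | h
    · by_cases he : (A ^ m).image (· • x) = (A ^ (m + 1)).image (· • x)
      · right
        rw [← he]
        refine stable_univ A hclo hinv _ ?_ ?_
        · refine Finset.card_pos.1 ?_
          omega
        · intro a ha y hy
          rw [he]
          obtain ⟨g, hg, rfl⟩ := Finset.mem_image.1 hy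
          refine Finset.mem_image.2 ⟨a * g, ?_, ?_⟩
          · rw [pow_succ']
            exact Finset.mul_mem_mul ha hg
          · show (a * g) • x = a • (g • x)
            rw [mul_smul]
      · left
        have h2 := Finset.card_lt_card ((hsub m).ssubset_of_ne he)
        omega
    · right
      have h2 := hsub m
      rw [h] at h2
      exact Finset.univ_subset_iff.1 h2

end reach

/-- the generators -/
def gens : Finset SL(2, ℤ) := {1, S, T, S⁻¹, T⁻¹}

/-- any two cosets are joined by a matrix whose size is bounded in terms of the index -/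
theorem small_index (m : ℕ) : ∃ C : ℝ, 0 < C ∧ ∀ Γ : Subgroup SL(2, ℤ), Γ.FiniteIndex →
    Γ.index ≤ m → ∀ x y : SL(2, ℤ) ⧸ Γ, ∃ γ : SL(2, ℤ), (∀ i j, |((γ i j : ℤ) : ℝ)| ≤ C) ∧
      γ • x = y := by
  classical
  obtain ⟨C, hC⟩ : ∃ C : ℝ, ∀ γ ∈ (gens ^ m : Finset SL(2, ℤ)), ∀ i j, |((γ i j : ℤ) : ℝ)| ≤ C := by
    refine ⟨∑ γ ∈ (gens ^ m : Finset SL(2, ℤ)), ∑ i, ∑ j, |((γ i j : ℤ) : ℝ)|, ?_⟩
    intro γ hγ i j
    calc |((γ i j : ℤ) : ℝ)| ≤ ∑ j, |((γ i j : ℤ) : ℝ)| :=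
          Finset.single_le_sum (f := fun j => |((γ i j : ℤ) : ℝ)|) (fun _ _ => abs_nonneg _)
            (Finset.mem_univ j)
      _ ≤ ∑ i, ∑ j, |((γ i j : ℤ) : ℝ)| :=
          Finset.single_le_sum (f := fun i => ∑ j, |((γ i j : ℤ) : ℝ)|)
            (fun _ _ => Finset.sum_nonneg fun _ _ => abs_nonneg _) (Finset.mem_univ i)
      _ ≤ _ := Finset.single_le_sum (f := fun γ : SL(2, ℤ) => ∑ i, ∑ j, |((γ i j : ℤ) : ℝ)|)
            (fun _ _ => Finset.sum_nonneg fun _ _ => Finset.sum_nonneg fun _ _ => abs_nonneg _) hγ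
  refine ⟨|C| + 1, by positivity, ?_⟩
  intro Γ hfi hm x y
  have hfin : Finite (SL(2, ℤ) ⧸ Γ) := Subgroup.finite_quotient_of_finiteIndex
  have hft : Fintype (SL(2, ℤ) ⧸ Γ) := Fintype.ofFinite _
  have hclo : Subgroup.closure (gens : Set SL(2, ℤ)) = ⊤ := by
    rw [eq_top_iff, ← SpecialLinearGroup.SL2Z_generators]
    apply Subgroup.closure_mono
    intro g hg
    rcases hg with rfl | rfl <;> simp [gens]
  have hinv : ∀ a ∈ gens, a⁻¹ ∈ gens := by
    intro a ha
    simp only [gens, Finset.mem_insert, Finset.mem_singleton] at ha ⊢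
    rcases ha with rfl | rfl | rfl | rfl | rfl <;> simp
  have h := reach (X := SL(2, ℤ) ⧸ Γ) gens (by simp [gens]) hclo hinv x m
  have huniv : (gens ^ m).image (· • x) = (Finset.univ : Finset (SL(2, ℤ) ⧸ Γ)) := by
    rcases h with h | h
    · exfalso
      have h1 : ((gens ^ m).image (· • x)).card ≤ Fintype.card (SL(2, ℤ) ⧸ Γ) :=
        Finset.card_le_univ _
      have h3 : Fintype.card (SL(2, ℤ) ⧸ Γ) = Γ.index := by
        rw [Subgroup.index, Nat.card_eq_fintype_card]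
      omega
    · exact h
  have hy : y ∈ (gens ^ m).image (· • x) := by rw [huniv]; exact Finset.mem_univ y
  obtain ⟨γ, hγ, hγy⟩ := Finset.mem_image.1 hy
  exact ⟨γ, fun i j => (hC γ hγ i j).trans ((le_abs_self C).trans (by linarith)), hγy⟩

/-- entries of a product -/
lemma entries_mul {γ δ : SL(2, ℤ)} {T : ℝ} (hT : 0 ≤ T) (h : ∀ i j, |((γ i j : ℤ) : ℝ)| ≤ T)
    (h' : ∀ i j, |((δ i j : ℤ) : ℝ)| ≤ T) : ∀ i j, |(((γ * δ) i j : ℤ) : ℝ)| ≤ 2 * T ^ 2 := by
  intro i j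
  have e : (γ * δ) i j = γ i 0 * δ 0 j + γ i 1 * δ 1 j := by
    rw [Matrix.SpecialLinearGroup.coe_mul, Matrix.mul_apply, Fin.sum_univ_two]
  rw [e]
  push_cast
  refine (abs_add_le _ _).trans ?_
  rw [abs_mul, abs_mul]
  have h1 := mul_le_mul (h i 0) (h' 0 j) (abs_nonneg _) hT
  have h2 := mul_le_mul (h i 1) (h' 1 j) (abs_nonneg _) hT
  nlinarith

/-- **Any two cosets outside of a small set** -/
theorem diam (η : ℝ) (hη : 0 < η) (hη1 : η ≤ 1) : ∃ δ : ℝ, 0 < δ ∧ ∃ C : ℝ, 0 < C ∧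
    ∀ Γ : Subgroup SL(2, ℤ), (∃ N : ℕ, 0 < N ∧ Gamma N ≤ Γ) →
    (∃ E : Set (SL(2, ℤ) ⧸ Γ), (E.ncard : ℝ) ≤ C * (Γ.index : ℝ) ^ (1 - δ) ∧
      ∀ x ∉ E, ∀ y ∉ E, ∃ γ : SL(2, ℤ),
        (∀ i j, |((γ i j : ℤ) : ℝ)| ≤ C * (Γ.index : ℝ) ^ (1 + η)) ∧ γ • x = y) ∧
    (Γ.Normal → ∀ x y : SL(2, ℤ) ⧸ Γ, ∃ γ : SL(2, ℤ),
        (∀ i j, |((γ i j : ℤ) : ℝ)| ≤ C * (Γ.index : ℝ) ^ (1 + η)) ∧ γ • x = y) := by
  classical
  obtain ⟨δ', hδ', C0, hC0, hlow⟩ := low (η / 2) (by positivity) (by linarith)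
  set δ : ℝ := δ' * (1 / 2 + η / 2) with hδ
  have hδ0 : 0 < δ := by positivity
  -- the bound for normal subgroups
  set n1 : ℕ := ⌈(2 * C0) ^ (1 / δ)⌉₊ with hn1
  obtain ⟨C1, hC1, hsmall⟩ := small_index n1
  set C : ℝ := 4 * C0 + 2 + C1 with hC
  have hCpos : 0 < C := by positivity
  refine ⟨δ, hδ0, C, hCpos, ?_⟩
  rintro Γ ⟨N, hN, hle⟩
  have hNz : NeZero N := ⟨hN.ne'⟩
  have hfi : Γ.FiniteIndex := Subgroup.finiteIndex_of_le hle
  have hfin : Finite (SL(2, ℤ) ⧸ Γ) := Subgroup.finite_quotient_of_finiteIndex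
  have hft : Fintype (SL(2, ℤ) ⧸ Γ) := Fintype.ofFinite _
  have h3 : Fintype.card (SL(2, ℤ) ⧸ Γ) = Γ.index := by
    rw [Subgroup.index, Nat.card_eq_fintype_card]
  set n : ℝ := (Γ.index : ℝ) with hn
  have hn1' : 1 ≤ n := by
    rw [hn]; exact_mod_cast Nat.pos_of_ne_zero hfi.index_ne_zero
  have hn0 : 0 < n := by linarith
  set T0 : ℝ := n ^ (1 / 2 + η / 2) with hT0
  have hT01 : 1 ≤ T0 := Real.one_le_rpow hn1' (by positivity)
  have hT00 : 0 < T0 := by linarith
  -- the bad pairs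
  set P : (SL(2, ℤ) ⧸ Γ) → (SL(2, ℤ) ⧸ Γ) → Prop := fun x y =>
    ∀ γ : SL(2, ℤ), (∀ i j, |((γ i j : ℤ) : ℝ)| ≤ T0) → γ • x ≠ y with hP
  have hbad : (Nat.card {p : (SL(2, ℤ) ⧸ Γ) × (SL(2, ℤ) ⧸ Γ) // P p.1 p.2} : ℝ) ≤
      C0 * n ^ (2 - δ) := by
    have h1 := hlow Γ ⟨N, hN, hle⟩ T0 le_rfl
    have h2 : Nat.card {p : (SL(2, ℤ) ⧸ Γ) × (SL(2, ℤ) ⧸ Γ) // P p.1 p.2} ≤
        Nat.card {p : (SL(2, ℤ) ⧸ Γ) × (SL(2, ℤ) ⧸ Γ) //
          (nm Γ T0 p.1 p.2 : ℝ) < T0 ^ (2 - η / 2) / (C0 * n)} := by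
      refine Nat.card_le_card_of_injective (fun p => ⟨p.1, ?_⟩) ?_
      · have h4 : nm Γ T0 p.1.1 p.1.2 = 0 := by
          rw [nm_eq]
          rw [Set.ncard_eq_zero ((finite_ent T0).subset fun _ h => h.1)]
          rw [Set.eq_empty_iff_forall_notMem]
          rintro γ ⟨hγ1, hγ2⟩
          exact p.2 γ hγ1 hγ2
        rw [h4]
        push_cast
        have := Real.rpow_pos_of_pos hT00 (2 - η / 2)
        positivity
      · intro p p' h
        have := congrArg Subtype.val h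
        exact Subtype.ext this
    have h4 : n ^ 2 * T0 ^ (-δ') = n ^ (2 - δ) := by
      rw [hT0, ← Real.rpow_mul hn0.le, ← Real.rpow_two, ← Real.rpow_add hn0]
      congr 1
      rw [hδ]; ring
    calc (Nat.card {p : (SL(2, ℤ) ⧸ Γ) × (SL(2, ℤ) ⧸ Γ) // P p.1 p.2} : ℝ)
        ≤ (Nat.card {p : (SL(2, ℤ) ⧸ Γ) × (SL(2, ℤ) ⧸ Γ) //
          (nm Γ T0 p.1 p.2 : ℝ) < T0 ^ (2 - η / 2) / (C0 * n)} : ℝ) := by exact_mod_cast h2
      _ ≤ C0 * n ^ 2 * T0 ^ (-δ') := h1
      _ = C0 * n ^ (2 - δ) := by rw [← h4]; ring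
  have hsumbad : (∑ x : SL(2, ℤ) ⧸ Γ, ∑ y : SL(2, ℤ) ⧸ Γ, (if P x y then 1 else 0 : ℕ)) =
      Nat.card {p : (SL(2, ℤ) ⧸ Γ) × (SL(2, ℤ) ⧸ Γ) // P p.1 p.2} := by
    rw [Nat.card_eq_fintype_card, Fintype.card_subtype, Finset.card_filter,
      Fintype.sum_prod_type]
  -- rows and columns with many bad pairs
  set row : (SL(2, ℤ) ⧸ Γ) → ℕ := fun x => (Finset.univ.filter fun y => P x y).card with hrow
  set col : (SL(2, ℤ) ⧸ Γ) → ℕ := fun y => (Finset.univ.filter fun x => P x y).card with hcol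
  have hrowsum : ∑ x, (row x : ℝ) ≤ C0 * n ^ (2 - δ) := by
    refine le_trans (le_of_eq ?_) hbad
    rw [← hsumbad]
    push_cast
    refine Finset.sum_congr rfl fun x _ => ?_
    rw [hrow]
    simp only [Finset.card_filter]
    push_cast
    rfl
  have hcolsum : ∑ y, (col y : ℝ) ≤ C0 * n ^ (2 - δ) := by
    refine le_trans (le_of_eq ?_) hbad
    rw [← hsumbad, Finset.sum_comm]
    push_cast
    refine Finset.sum_congr rfl fun x _ => ?_
    rw [hcol]
    simp only [Finset.card_filter]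
    push_cast
    rfl
  have hmarkov : ∀ f : (SL(2, ℤ) ⧸ Γ) → ℕ, ∑ x, (f x : ℝ) ≤ C0 * n ^ (2 - δ) →
      ((Finset.univ.filter fun x => n ≤ 2 * (f x : ℝ)).card : ℝ) ≤ 2 * C0 * n ^ (1 - δ) := by
    intro f hf
    set A := Finset.univ.filter fun x => n ≤ 2 * (f x : ℝ) with hA
    have h1 : (A.card : ℝ) * n ≤ 2 * (C0 * n ^ (2 - δ)) := by
      calc (A.card : ℝ) * n = ∑ _x ∈ A, n := by rw [Finset.sum_const, nsmul_eq_mul]
        _ ≤ ∑ x ∈ A, 2 * (f x : ℝ) := Finset.sum_le_sum fun x hx => (Finset.mem_filter.1 hx).2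
        _ ≤ ∑ x, 2 * (f x : ℝ) :=
            Finset.sum_le_sum_of_subset_of_nonneg (Finset.subset_univ _) fun _ _ _ => by positivity
        _ = 2 * ∑ x, (f x : ℝ) := by rw [Finset.mul_sum]
        _ ≤ 2 * (C0 * n ^ (2 - δ)) := by linarith
    have h2 : n ^ (2 - δ) = n ^ (1 - δ) * n := by
      have : n ^ (1 - δ) * n = n ^ (1 - δ) * n ^ (1 : ℝ) := by rw [Real.rpow_one]
      rw [this, ← Real.rpow_add hn0]; congr 1; ring
    rw [h2] at h1
    have h4 : (A.card : ℝ) * n ≤ 2 * C0 * n ^ (1 - δ) * n := by linarith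
    exact le_of_mul_le_mul_right h4 hn0
  -- joining two cosets
  have hjoin : ∀ x y : SL(2, ℤ) ⧸ Γ, 2 * (row x : ℝ) < n → 2 * (col y : ℝ) < n →
      ∃ γ : SL(2, ℤ), (∀ i j, |((γ i j : ℤ) : ℝ)| ≤ C * n ^ (1 + η)) ∧ γ • x = y := by
    intro x y hx hy
    have h1 : ∃ z, ¬ P x z ∧ ¬ P z y := by
      by_contra hcon
      push Not at hcon
      have h2 : (Finset.univ : Finset (SL(2, ℤ) ⧸ Γ)) ⊆
          (Finset.univ.filter fun z => P x z) ∪ (Finset.univ.filter fun z => P z y) := by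
        intro z _
        rw [Finset.mem_union, Finset.mem_filter, Finset.mem_filter]
        by_cases h4 : P x z
        · exact Or.inl ⟨Finset.mem_univ _, h4⟩
        · exact Or.inr ⟨Finset.mem_univ _, hcon z h4⟩
      have h4 := (Finset.card_le_card h2).trans (Finset.card_union_le _ _)
      rw [Finset.card_univ, h3] at h4
      have h5 : n ≤ (row x : ℝ) + col y := by
        rw [hn, hrow, hcol]
        exact_mod_cast h4
      linarith
    obtain ⟨z, hxz, hzy⟩ := h1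
    rw [hP] at hxz hzy
    push Not at hxz hzy
    obtain ⟨γ1, h11, h12⟩ := hxz
    obtain ⟨γ2, h21, h22⟩ := hzy
    refine ⟨γ2 * γ1, ?_, by rw [mul_smul, h12, h22]⟩
    intro i j
    refine (entries_mul hT00.le h21 h11 i j).trans ?_
    have h6 : T0 ^ 2 = n ^ (1 + η) := by
      rw [hT0, ← Real.rpow_natCast, ← Real.rpow_mul hn0.le]; congr 1; push_cast; ring
    rw [h6]
    have h7 : 0 < n ^ (1 + η) := Real.rpow_pos_of_pos hn0 _
    have h8 : (2 : ℝ) ≤ C := by rw [hC]; linarith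
    exact mul_le_mul_of_nonneg_right h8 h7.le
  refine ⟨?_, ?_⟩
  · -- general subgroups
    refine ⟨((Finset.univ.filter fun x => n ≤ 2 * (row x : ℝ)) ∪
      (Finset.univ.filter fun x => n ≤ 2 * (col x : ℝ)) : Finset (SL(2, ℤ) ⧸ Γ)), ?_, ?_⟩
    · rw [Set.ncard_coe_finset]
      have h1 := hmarkov row hrowsum
      have h2 := hmarkov col hcolsum
      have h4 : ((((Finset.univ.filter fun x => n ≤ 2 * (row x : ℝ)) ∪
        (Finset.univ.filter fun x => n ≤ 2 * (col x : ℝ)) : Finset (SL(2, ℤ) ⧸ Γ)).card : ℕ) : ℝ) ≤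
          (Finset.univ.filter fun x => n ≤ 2 * (row x : ℝ)).card +
          (Finset.univ.filter fun x => n ≤ 2 * (col x : ℝ)).card := by
        exact_mod_cast Finset.card_union_le _ _
      have h5 : 0 < n ^ (1 - δ) := Real.rpow_pos_of_pos hn0 _
      have h6 : 4 * C0 * n ^ (1 - δ) ≤ C * n ^ (1 - δ) := by
        apply mul_le_mul_of_nonneg_right _ h5.le
        rw [hC]; linarith
      linarith
    · intro x hx y hy
      simp only [Finset.coe_union, Finset.coe_filter, Finset.mem_univ, true_and, Set.mem_union,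
        Set.mem_setOf_eq, not_or, not_le] at hx hy
      exact hjoin x y hx.1 hy.2
  · -- normal subgroups
    intro hnorm x y
    -- right translations
    have htr : ∀ x x' : SL(2, ℤ) ⧸ Γ, ∃ e : (SL(2, ℤ) ⧸ Γ) ≃ (SL(2, ℤ) ⧸ Γ), e x = x' ∧
        ∀ (γ : SL(2, ℤ)) (z : SL(2, ℤ) ⧸ Γ), γ • e z = e (γ • z) := by
      intro x x'
      refine ⟨Equiv.mulRight (x⁻¹ * x'), ?_, ?_⟩
      · simp
      · intro γ z
        induction z using QuotientGroup.induction_on with
        | H g =>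
          generalize x⁻¹ * x' = w
          induction w using QuotientGroup.induction_on with
          | H h =>
            show γ • ((g : SL(2, ℤ) ⧸ Γ) * (h : SL(2, ℤ) ⧸ Γ)) =
              (γ • (g : SL(2, ℤ) ⧸ Γ)) * (h : SL(2, ℤ) ⧸ Γ)
            rw [← QuotientGroup.mk_mul, MulAction.Quotient.smul_coe, MulAction.Quotient.smul_coe,
              smul_eq_mul, smul_eq_mul, ← QuotientGroup.mk_mul, mul_assoc]
    have hPtr : ∀ (e : (SL(2, ℤ) ⧸ Γ) ≃ (SL(2, ℤ) ⧸ Γ)),
        (∀ (γ : SL(2, ℤ)) (z : SL(2, ℤ) ⧸ Γ), γ • e z = e (γ • z)) →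
        ∀ z w, P z w ↔ P (e z) (e w) := by
      intro e he z w
      rw [hP]
      constructor
      · intro h γ hγ h'
        rw [he] at h'
        exact h γ hγ (e.injective h')
      · intro h γ hγ h'
        exact h γ hγ (by rw [he, h'])
    have hrowc : ∀ x x', row x = row x' := by
      intro x x'
      obtain ⟨e, he1, he2⟩ := htr x x'
      rw [hrow]
      refine Finset.card_equiv e fun z => ?_
      simp only [Finset.mem_filter, Finset.mem_univ, true_and]
      rw [hPtr e he2 x z, he1]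
    have hcolc : ∀ y y', col y = col y' := by
      intro y y'
      obtain ⟨e, he1, he2⟩ := htr y y'
      rw [hcol]
      refine Finset.card_equiv e fun z => ?_
      simp only [Finset.mem_filter, Finset.mem_univ, true_and]
      rw [hPtr e he2 z y, he1]
    by_cases hbig : n ≤ n1
    · have h1 : Γ.index ≤ n1 := by
        rw [hn] at hbig
        exact_mod_cast hbig
      obtain ⟨γ, h4, h5⟩ := hsmall Γ hfi h1 x y
      refine ⟨γ, fun i j => (h4 i j).trans ?_, h5⟩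
      have h6 : 1 ≤ n ^ (1 + η) := Real.one_le_rpow hn1' (by positivity)
      have h7 : C1 ≤ C := by rw [hC]; linarith
      nlinarith
    · rw [not_le] at hbig
      have h1 : (2 * C0) ^ (1 / δ) < n := (Nat.le_ceil _).trans_lt hbig
      have h4 : 2 * C0 < n ^ δ := by
        have h5 : ((2 * C0) ^ (1 / δ)) ^ δ < n ^ δ :=
          Real.rpow_lt_rpow (by positivity) h1 hδ0
        rwa [← Real.rpow_mul (by positivity), one_div_mul_cancel hδ0.ne', Real.rpow_one] at h5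
      have h5 : 2 * C0 * n ^ (1 - δ) < n := by
        have h6 : n ^ δ * n ^ (1 - δ) = n := by
          rw [← Real.rpow_add hn0]; simp
        have h7 : 0 < n ^ (1 - δ) := Real.rpow_pos_of_pos hn0 _
        calc 2 * C0 * n ^ (1 - δ) < n ^ δ * n ^ (1 - δ) := mul_lt_mul_of_pos_right h4 h7
          _ = n := h6
      have hno : ∀ f : (SL(2, ℤ) ⧸ Γ) → ℕ, ∑ x, (f x : ℝ) ≤ C0 * n ^ (2 - δ) →
          (∀ x x', f x = f x') → ∀ x, 2 * (f x : ℝ) < n := by
        intro f hf hc x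
        by_contra hcon
        rw [not_lt] at hcon
        have h6 := hmarkov f hf
        have h7 : (Finset.univ.filter fun x => n ≤ 2 * (f x : ℝ)) =
            (Finset.univ : Finset (SL(2, ℤ) ⧸ Γ)) := by
          rw [Finset.filter_eq_self]
          intro z _
          rw [hc z x]
          exact hcon
        rw [h7, Finset.card_univ, h3] at h6
        linarith
      exact hjoin x y (hno row hrowsum hrowc x) (hno col hcolsum hcolc y)

end Pool.Agent.H382.SA
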