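import Pool.Graph.R_pool_sql_team_seeded_63374d34.N799.DT.Geo
import Pool.Graph.R_pool_sql_team_seeded_63374d34.N799.OL.Core

/-!
# The geometric side for large radii

The sum over the matrices in a ball of radius `R` weighted with the number of fixed cosets is at most
`C exp (ε R)` in the normalisation of the kernel `kk R 1`, for all `R ≥ log n + 3` (in the library
only for `R = log n + 3`).
-/

set_option autoImplicit false

open UpperHalfPlane MeasureTheory Metric ModularGroup CongruenceSubgroup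
open scoped MatrixGroups ENNReal Modular Topology NNReal ComplexConjugate

namespace Pool.Agent.H382.SA

open Pool.Agent.H369R2 Pool.Agent.N799.DT
open Pool.Agent.N799.OL (z0)

open Trace Geo in
theorem geoR (h : S_count) (ε Y : ℝ) (hε : 0 < ε) : ∃ C : ℝ, 0 < C ∧
    ∀ (Γ : Subgroup SL(2, ℤ)) (N : ℕ), IsLevel Γ N →
    ∀ R : ℝ, Real.log Γ.index + 3 ≤ R →
    ∀ z ∈ (𝒟ᵒ : Set ℍ) ∩ (cuspRegion Y)ᶜ,
      ∑' δ : SL(2, ℤ), (fix Γ δ : ℝ≥0∞) * kk R 1 (δ • z) z ≤
        ENNReal.ofReal (C * Real.exp (ε * R)) := by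
  classical
  set e : ℝ := ε / 4 with he_def
  have he : 0 < e := by positivity
  obtain ⟨C₀, hC₀, hcount⟩ := h e he
  set r₀ : ℝ := 2 + (|Y| + 1) ^ 2 with hr₀
  have hr0 : 0 ≤ r₀ := by positivity
  have hl2 : 0 < Real.log 2 := Real.log_pos (by norm_num)
  set C₁ : ℝ := √2 * Real.exp r₀ with hC₁
  have hs2 : 1 ≤ √2 := by rw [Real.one_le_sqrt]; norm_num
  have hC₁1 : 1 ≤ C₁ := by
    have : 1 ≤ Real.exp r₀ := Real.one_le_exp (by positivity)
    rw [hC₁]
    nlinarith
  set c : ℝ := 1 + 1 / (e * Real.log 2) with hc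
  have hc0 : 0 < c := by positivity
  set C₂ : ℝ := 2 + c * C₁ ^ e * (C₀ * (2 * C₁) ^ e * (6 * C₁)) with hC₂
  have hC₂0 : 0 < C₂ := by positivity
  set C₃ : ℝ := 368 * (Real.exp r₀ * √2) * (1 / e) with hC₃
  have hC₃0 : 0 < C₃ := by positivity
  refine ⟨C₃ * C₂, by positivity, ?_⟩
  intro Γ N hN R hRn z hz
  have hNz : NeZero N := ⟨hN.1.ne'⟩
  have hfi : Γ.FiniteIndex := Subgroup.finiteIndex_of_le hN.2.1
  set n : ℝ := (Γ.index : ℝ) with hn
  have hn1 : 1 ≤ n := by
    have : 1 ≤ Γ.index := Nat.one_le_iff_ne_zero.2 hfi.index_ne_zero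
    rw [hn]
    exact_mod_cast this
  have hn0 : 0 < n := by linarith
  have hlog : 0 ≤ Real.log n := Real.log_nonneg hn1
  have hR3 : 3 ≤ R := by linarith
  have hR : 0 < R := by linarith
  set E : ℝ := Real.exp R with hE
  have hE0 : 0 < E := Real.exp_pos R
  have hnE : n ≤ E := by
    rw [hE, ← Real.exp_log hn0]
    exact Real.exp_le_exp.2 (by linarith)
  have hE1 : 1 ≤ E := hn1.trans hnE
  -- the point
  have hzd : z ∈ (𝒟 : Set ℍ) := fdo_subset_fd hz.1
  have hY : z.im ≤ Y := by
    by_contra hcon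
    push Not at hcon
    exact hz.2 ⟨1, by rw [one_smul]; exact hcon⟩
  have hdI : dist z I ≤ r₀ := dist_I_le hzd hY
  have hd1 : ∀ δ : SL(2, ℤ), dist (δ • (I : ℍ)) I ≤ dist z (δ • z) + 2 * r₀ := by
    intro δ
    have t1 := dist_triangle (δ • (I : ℍ)) (δ • z) I
    have t2 := dist_triangle (δ • z) z I
    rw [dist_smul_int, dist_comm (I : ℍ) z] at t1
    rw [dist_comm (δ • z) z] at t2
    linarith
  set X : ℝ := C₁ * E with hX
  have hX1 : 1 ≤ X := by rw [hX]; nlinarith
  have hXe : X = √2 * Real.exp r₀ * Real.exp R := by rw [hX, hC₁]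
  set K : ℝ := 368 * R * Real.exp (-R) * (Real.exp r₀ * √2) with hK
  have hK0 : 0 < K := by positivity
  have hbv := bv_pos hR
  have hterm : ∀ δ : SL(2, ℤ), kk R 1 (δ • z) z ≤
      if mnorm δ ≤ X then ENNReal.ofReal (K * (mnorm δ)⁻¹) else 0 := by
    intro δ
    have hm := mnorm_pos' δ
    split_ifs with hδ
    · refine (kk_le hR 0 (δ • z) z).trans ?_
      have e1 : Real.exp (-(dist z (δ • z) / 2)) ≤ Real.exp r₀ * (√2 / mnorm δ) := by
        calc Real.exp (-(dist z (δ • z) / 2))
            ≤ Real.exp (r₀ + -(dist (δ • (I : ℍ)) I / 2)) := by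
              apply Real.exp_le_exp.2
              linarith [hd1 δ]
          _ = Real.exp r₀ * Real.exp (-(dist (δ • (I : ℍ)) I / 2)) := Real.exp_add _ _
          _ ≤ Real.exp r₀ * (√2 / mnorm δ) := by
              gcongr
              exact exp_half_le δ
      have e2 : (ENNReal.ofReal (bv R))⁻¹ ≤ ENNReal.ofReal (8 * Real.exp (-R)) := by
        rw [← ENNReal.ofReal_inv_of_pos hbv]
        apply ENNReal.ofReal_le_ofReal
        have h1 := bv_lower hR3
        have h2 : 0 < Real.exp R / 8 := by positivity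
        calc (bv R)⁻¹ ≤ (Real.exp R / 8)⁻¹ := inv_anti₀ h2 h1
          _ = 8 * Real.exp (-R) := by rw [Real.exp_neg]; field_simp
      rw [zero_add, pow_one]
      calc (ENNReal.ofReal (bv R))⁻¹ * ENNReal.ofReal (Real.exp (R / 2)) * rhoE R *
            ENNReal.ofReal (Real.exp (-(dist z (δ • z) / 2)))
          ≤ ENNReal.ofReal (8 * Real.exp (-R)) * ENNReal.ofReal (Real.exp (R / 2)) *
            ENNReal.ofReal (46 * R * Real.exp (-(R / 2))) *
            ENNReal.ofReal (Real.exp r₀ * (√2 / mnorm δ)) := by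
              gcongr
              exact rhoE_le hR3
        _ = ENNReal.ofReal (K * (mnorm δ)⁻¹) := by
              rw [← ENNReal.ofReal_mul (by positivity), ← ENNReal.ofReal_mul (by positivity),
                ← ENNReal.ofReal_mul (by positivity)]
              congr 1
              have h3 : Real.exp (R / 2) * Real.exp (-(R / 2)) = 1 := by
                rw [← Real.exp_add]; simp
              have h4 : 8 * Real.exp (-R) * Real.exp (R / 2) * (46 * R * Real.exp (-(R / 2))) *
                  (Real.exp r₀ * (√2 / mnorm δ)) = (Real.exp (R / 2) * Real.exp (-(R / 2))) *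
                  (368 * R * Real.exp (-R) * (Real.exp r₀ * √2) * (mnorm δ)⁻¹) := by
                rw [div_eq_mul_inv]; ring
              rw [h4, h3, one_mul]
    · rw [kk_eq_zero hR 1 (δ • z) z]
      by_contra hc'
      push Not at hc'
      apply hδ
      refine (mnorm_le δ).trans ?_
      have e2 : dist (δ • (I : ℍ)) I / 2 ≤ r₀ + R := by
        have := hd1 δ
        push_cast at hc'
        linarith
      calc √2 * Real.exp (dist (δ • (I : ℍ)) I / 2)
          ≤ √2 * Real.exp (r₀ + R) := by gcongr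
        _ = X := by rw [hXe, Real.exp_add]; ring
  rw [ENNReal.tsum_eq_iSup_sum]
  refine iSup_le fun s => ?_
  calc ∑ δ ∈ s, (fix Γ δ : ℝ≥0∞) * kk R 1 (δ • z) z
      ≤ ∑ δ ∈ s, (if mnorm δ ≤ X then ENNReal.ofReal (K * ((fix Γ δ : ℝ) * (mnorm δ)⁻¹)) else 0) := by
        refine Finset.sum_le_sum fun δ _ => ?_
        refine (mul_le_mul_right (hterm δ) _).trans ?_
        split_ifs
        · have h1 : (fix Γ δ : ℝ≥0∞) = ENNReal.ofReal (fix Γ δ : ℝ) := (ENNReal.ofReal_natCast _).symm
          rw [h1, ← ENNReal.ofReal_mul (by positivity)]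
          apply ENNReal.ofReal_le_ofReal
          exact le_of_eq (by ring)
        · rw [mul_zero]
    _ ≤ ENNReal.ofReal (C₃ * C₂ * Real.exp (ε * R)) := by
        rw [← Finset.sum_filter, ← ENNReal.ofReal_sum_of_nonneg (fun δ _ => by
          have := mnorm_pos' δ
          positivity)]
        apply ENNReal.ofReal_le_ofReal
        rw [← Finset.mul_sum]
        set t : Finset SL(2, ℤ) := s.filter fun δ => mnorm δ ≤ X with ht
        have htX : ∀ δ ∈ t, mnorm δ ≤ X := fun δ hδ => (Finset.mem_filter.1 hδ).2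
        set u : Finset SL(2, ℤ) := t.filter fun δ => ¬ (δ = 1 ∨ δ = -1) with hu
        have hsplit : ∑ δ ∈ t, (fix Γ δ : ℝ) * (mnorm δ)⁻¹ =
            ∑ δ ∈ t.filter (fun δ => δ = 1 ∨ δ = -1), (fix Γ δ : ℝ) * (mnorm δ)⁻¹ +
              ∑ δ ∈ u, (fix Γ δ : ℝ) * (mnorm δ)⁻¹ :=
          (Finset.sum_filter_add_sum_filter_not _ _ _).symm
        have hpart1 : ∑ δ ∈ t.filter (fun δ => δ = 1 ∨ δ = -1), (fix Γ δ : ℝ) * (mnorm δ)⁻¹ ≤ 2 * n := by
          have hsub : t.filter (fun δ => δ = 1 ∨ δ = -1) ⊆ {1, -1} := by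
            intro δ hδ
            have := (Finset.mem_filter.1 hδ).2
            simpa using this
          have hle : ∀ δ ∈ t.filter (fun δ => δ = 1 ∨ δ = -1), (fix Γ δ : ℝ) * (mnorm δ)⁻¹ ≤ n := by
            intro δ _
            have h1 : (fix Γ δ : ℝ) ≤ n := by
              rw [hn]
              exact_mod_cast fix_le Γ δ
            have h2 : (mnorm δ)⁻¹ ≤ 1 := inv_le_one_of_one_le₀ (S6b.one_le_mnorm δ)
            calc (fix Γ δ : ℝ) * (mnorm δ)⁻¹ ≤ n * 1 :=
                  mul_le_mul h1 h2 (inv_nonneg.2 (mnorm_pos' δ).le) hn0.le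
              _ = n := mul_one n
          calc ∑ δ ∈ t.filter (fun δ => δ = 1 ∨ δ = -1), (fix Γ δ : ℝ) * (mnorm δ)⁻¹
              ≤ ((t.filter (fun δ => δ = 1 ∨ δ = -1)).card : ℝ) * n := by
                rw [← nsmul_eq_mul]
                exact Finset.sum_le_card_nsmul _ _ _ hle
            _ ≤ 2 * n := by
                apply mul_le_mul_of_nonneg_right _ hn0.le
                have h3 : (t.filter (fun δ => δ = 1 ∨ δ = -1)).card ≤ 2 :=
                  (Finset.card_le_card hsub).trans (Finset.card_le_two)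
                exact_mod_cast h3
        have hpart2 : ∑ δ ∈ u, (fix Γ δ : ℝ) * (mnorm δ)⁻¹ ≤
            c * X ^ e * (C₀ * (n * (2 * X)) ^ e * (2 * n + 4 * X)) := by
          refine dyadic he hC₀ hn1 hX1 (fun δ => (fix Γ δ : ℝ)) u (fun δ => by positivity)
            (fun δ hδ => htX δ (Finset.mem_filter.1 hδ).1) ?_
          intro Z hZ s' hs' hs'Z
          refine hcount Γ N hN Z hZ s' fun δ hδ => ?_
          have h1 := (Finset.mem_filter.1 (hs' hδ)).2
          push Not at h1
          exact ⟨h1.1, h1.2, hs'Z δ hδ⟩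
        have hnX : n ≤ X := by rw [hX]; nlinarith
        have hEe1 : 1 ≤ E ^ e := Real.one_le_rpow hE1 he.le
        have hXpow : X ^ e = C₁ ^ e * E ^ e := Real.mul_rpow (by linarith) hE0.le
        have hXpow2 : (n * (2 * X)) ^ e ≤ (2 * C₁) ^ e * (E ^ e * E ^ e) := by
          have h1 : n * (2 * X) ≤ (2 * C₁) * (E * E) := by
            have e1 : (2 * C₁) * (E * E) = E * (2 * X) := by rw [hX]; ring
            rw [e1]
            exact mul_le_mul_of_nonneg_right hnE (by linarith)
          have h2 : (n * (2 * X)) ^ e ≤ ((2 * C₁) * (E * E)) ^ e :=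
            Real.rpow_le_rpow (by positivity) h1 he.le
          have e2 : ((2 * C₁) * (E * E)) ^ e = (2 * C₁) ^ e * (E ^ e * E ^ e) := by
            rw [Real.mul_rpow (by positivity) (by positivity), Real.mul_rpow hE0.le hE0.le]
          rwa [e2] at h2
        have hsum : ∑ δ ∈ t, (fix Γ δ : ℝ) * (mnorm δ)⁻¹ ≤ C₂ * (E ^ e * E ^ e * E ^ e * E) := by
          rw [hsplit]
          have h2 : 1 ≤ E ^ e * E ^ e * E ^ e := by
            have := one_le_mul_of_one_le_of_one_le hEe1 hEe1
            exact one_le_mul_of_one_le_of_one_le this hEe1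
          have h1 : 2 * n ≤ 2 * (E ^ e * E ^ e * E ^ e * E) := by
            have h4 : n ≤ E ^ e * E ^ e * E ^ e * E := by
              calc n ≤ 1 * E := by linarith
                _ ≤ E ^ e * E ^ e * E ^ e * E := mul_le_mul_of_nonneg_right h2 hE0.le
            linarith
          have h3 : c * X ^ e * (C₀ * (n * (2 * X)) ^ e * (2 * n + 4 * X)) ≤
              c * C₁ ^ e * (C₀ * (2 * C₁) ^ e * (6 * C₁)) * (E ^ e * E ^ e * E ^ e * E) := by
            calc c * X ^ e * (C₀ * (n * (2 * X)) ^ e * (2 * n + 4 * X))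
                ≤ c * X ^ e * (C₀ * ((2 * C₁) ^ e * (E ^ e * E ^ e)) * (6 * X)) := by
                  gcongr
                  linarith
              _ = c * (C₁ ^ e * E ^ e) * (C₀ * ((2 * C₁) ^ e * (E ^ e * E ^ e)) * (6 * (C₁ * E))) := by
                  rw [hXpow, hX]
              _ = _ := by ring
          rw [hC₂, add_mul]
          exact add_le_add (hpart1.trans h1) (hpart2.trans h3)
        have hKle : K ≤ C₃ * E ^ e / E := by
          have h1 : R ≤ (1 / e) * E ^ e := by
            have h2 : Real.log E ≤ E ^ e / e := Real.log_le_rpow_div hE0.le he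
            rw [hE, Real.log_exp] at h2
            rw [hE]
            calc R ≤ Real.exp R ^ e / e := h2
              _ = (1 / e) * Real.exp R ^ e := by ring
          have h2 : Real.exp (-R) = 1 / E := by
            rw [Real.exp_neg, hE, one_div]
          calc K = 368 * (Real.exp r₀ * √2) * (R * Real.exp (-R)) := by rw [hK]; ring
            _ ≤ 368 * (Real.exp r₀ * √2) * (((1 / e) * E ^ e) * (1 / E)) := by
                rw [h2]
                gcongr
            _ = C₃ * E ^ e / E := by rw [hC₃]; ring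
        have hpow4 : Real.exp (ε * R) = E ^ e * E ^ e * E ^ e * E ^ e := by
          rw [← Real.rpow_add hE0, ← Real.rpow_add hE0, ← Real.rpow_add hE0, hE, ← Real.exp_mul]
          congr 1
          rw [he_def]; ring
        calc K * ∑ δ ∈ t, (fix Γ δ : ℝ) * (mnorm δ)⁻¹
            ≤ (C₃ * E ^ e / E) * (C₂ * (E ^ e * E ^ e * E ^ e * E)) :=
              mul_le_mul hKle hsum (Finset.sum_nonneg fun δ _ => by
                have := mnorm_pos' δ
                positivity) (by positivity)
          _ = C₃ * C₂ * Real.exp (ε * R) := by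
              rw [hpow4]
              field_simp

end Pool.Agent.H382.SA
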