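import Pool.Agent.H382.SA.Geo
import Pool.Agent.H382.SA.Count
import Pool.Graph.R_pool_sql_team_seeded_63374d34.N799.OL.Main
import Pool.Graph.R_pool_sql_team_seeded_63374d34.N799.OL.Few

/-!
# Almost all pairs of cosets are joined by many matrices
-/

set_option autoImplicit false

open UpperHalfPlane MeasureTheory Metric ModularGroup CongruenceSubgroup
open scoped MatrixGroups ENNReal Modular Topology NNReal ComplexConjugate

namespace Pool.Agent.H382.SA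

open Pool.Agent.H369R2 Pool.Agent.N799.DT Pool.Agent.N799.OL

noncomputable section

/-- the number of the matrices with entries at most `T` which carry `x` to `y` -/
def nm (Γ : Subgroup SL(2, ℤ)) (T : ℝ) (x y : SL(2, ℤ) ⧸ Γ) : ℕ :=
  Nat.card {γ : SL(2, ℤ) // (∀ i j, |((γ i j : ℤ) : ℝ)| ≤ T) ∧ γ • x = y}

lemma finite_ent (T : ℝ) : {γ : SL(2, ℤ) | ∀ i j, |((γ i j : ℤ) : ℝ)| ≤ T}.Finite := by
  rcases le_or_gt 0 T with hT | hT
  · exact (FinAux.finite_mnorm (2 * T)).subset fun γ hγ => mnorm_le hT hγ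
  · convert Set.finite_empty
    ext γ
    simp only [Set.mem_setOf_eq, Set.mem_empty_iff_false, iff_false, not_forall, not_le]
    exact ⟨0, 0, hT.trans_le (abs_nonneg _)⟩

lemma nm_eq (Γ : Subgroup SL(2, ℤ)) (T : ℝ) (x y : SL(2, ℤ) ⧸ Γ) :
    nm Γ T x y = {γ : SL(2, ℤ) | (∀ i j, |((γ i j : ℤ) : ℝ)| ≤ T) ∧ γ • x = y}.ncard := rfl

lemma num_le_nm (Γ : Subgroup SL(2, ℤ)) {T ρ : ℝ} (h : 4 * Real.exp (ρ / 2) ≤ T)
    (x y : SL(2, ℤ) ⧸ Γ) : num Γ ρ x y ≤ nm Γ T x y := by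
  rw [nm_eq]
  unfold num
  refine Set.ncard_le_ncard ?_ ((finite_ent T).subset fun _ h => h.1)
  rintro γ ⟨h1, h2⟩
  exact ⟨fun i j => (mat γ ρ h2 i j).trans h, h1⟩

/-- almost all pairs are joined by many matrices -/
theorem low (η : ℝ) (hη : 0 < η) (hη1 : η ≤ 1) : ∃ δ : ℝ, 0 < δ ∧ ∃ C : ℝ, 0 < C ∧
    ∀ Γ : Subgroup SL(2, ℤ), (∃ N : ℕ, 0 < N ∧ Gamma N ≤ Γ) →
    ∀ T : ℝ, (Γ.index : ℝ) ^ (1 / 2 + η) ≤ T →
    (Nat.card {p : (SL(2, ℤ) ⧸ Γ) × (SL(2, ℤ) ⧸ Γ) //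
        (nm Γ T p.1 p.2 : ℝ) < T ^ (2 - η) / (C * Γ.index)} : ℝ) ≤
      C * (Γ.index : ℝ) ^ 2 * T ^ (-δ) := by
  classical
  obtain ⟨κ, hκ, hκ1, hcon⟩ := con
  obtain ⟨Cb, hCb, hbes⟩ := bes fin one
  set q : ℝ := -Real.log (1 - κ) with hq
  have hq0 : 0 < q := by
    rw [hq]
    have := Real.log_neg (by linarith : (0 : ℝ) < 1 - κ) (by linarith)
    linarith
  set θ : ℝ := η / 2 with hθ
  have hθ0 : 0 < θ := by positivity
  set δ : ℝ := q * θ / 500 with hδ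
  have hδ0 : 0 < δ := by positivity
  obtain ⟨Cg, hCg, hgeo⟩ := geoR count_all (δ / 2) 3 (by positivity)
  set V : ℝ := (volume (𝒟ᵒ : Set ℍ)).toReal with hV
  have hV1 : 0 < V := by
    rw [hV]
    exact ENNReal.toReal_pos volume_fdo.2 volume_fdo.1
  set a : ℝ := 1 + 2 * Real.log 4 with ha
  have hl4 : 0 < Real.log 4 := Real.log_pos (by norm_num)
  have ha0 : 0 < a := by positivity
  set L0 : ℝ := (3 + a) * 6 / (5 * η) with hL0
  have hL00 : 0 < L0 := by positivity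
  set C1 : ℝ := Cb * V ^ 2 * Real.exp q * Cg with hC1
  have hC10 : 0 ≤ C1 := by positivity
  set C2 : ℝ := Real.exp (δ * L0) with hC2
  set C3 : ℝ := 8 * V * Real.exp a with hC3
  have hC30 : 0 < C3 := by positivity
  set C : ℝ := C1 + C2 + C3 with hC
  have hC20 : 0 < C2 := Real.exp_pos _
  have hC0 : 0 < C := by positivity
  refine ⟨δ, hδ0, C, hC0, ?_⟩
  rintro Γ ⟨N', hN', hle'⟩ T hT
  obtain ⟨N, hN⟩ := exists_level Γ ⟨N', hN', hle'⟩
  have hNz : NeZero N := ⟨hN.1.ne'⟩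
  have hfi : Γ.FiniteIndex := Subgroup.finiteIndex_of_le hN.2.1
  have hfin : Finite (SL(2, ℤ) ⧸ Γ) := Subgroup.finite_quotient_of_finiteIndex
  have hft : Fintype (SL(2, ℤ) ⧸ Γ) := Fintype.ofFinite _
  set n : ℝ := (Γ.index : ℝ) with hn
  have hn1 : 1 ≤ n := by
    rw [hn]; exact_mod_cast Nat.pos_of_ne_zero hfi.index_ne_zero
  have hn0 : 0 < n := by linarith
  have hT1 : 1 ≤ T := (Real.one_le_rpow hn1 (by positivity)).trans hT
  have hT0 : 0 < T := by linarith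
  set L : ℝ := Real.log T with hL
  have hLn : 0 ≤ L := Real.log_nonneg hT1
  have hexpL : Real.exp L = T := Real.exp_log hT0
  have hlogn : (1 / 2 + η) * Real.log n ≤ L := by
    rw [hL, ← Real.log_rpow hn0]
    exact Real.log_le_log (Real.rpow_pos_of_pos hn0 _) hT
  set B : Finset ((SL(2, ℤ) ⧸ Γ) × (SL(2, ℤ) ⧸ Γ)) := Finset.univ.filter fun p =>
    (nm Γ T p.1 p.2 : ℝ) < T ^ (2 - η) / (C * n) with hBdef
  have hcard : Nat.card {p : (SL(2, ℤ) ⧸ Γ) × (SL(2, ℤ) ⧸ Γ) //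
      (nm Γ T p.1 p.2 : ℝ) < T ^ (2 - η) / (C * n)} = B.card := by
    rw [Nat.card_eq_fintype_card, Fintype.card_subtype]
  rw [hcard]
  have hTd0 : 0 < T ^ (-δ) := Real.rpow_pos_of_pos hT0 _
  by_cases hbig : L0 ≤ L
  · -- the main case
    set R : ℝ := (2 - θ) * L - a with hR
    have hRn : Real.log n + 3 ≤ R := by
      have h1 : Real.log n ≤ L / (1 / 2 + η) := by
        rw [le_div_iff₀ (by positivity)]
        linarith
      have h2 : (5 * η / 6) * L ≤ (2 - θ) * L - L / (1 / 2 + η) := by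
        have h3 : 1 / (1 / 2 + η) ≤ 2 - 4 * η / 3 := by
          rw [div_le_iff₀ (by positivity)]
          nlinarith
        have h4 : L / (1 / 2 + η) = L * (1 / (1 / 2 + η)) := by ring
        have h5 : L * (1 / (1 / 2 + η)) ≤ L * (2 - 4 * η / 3) := mul_le_mul_of_nonneg_left h3 hLn
        rw [h4, hθ]
        nlinarith
      have h6 : 3 + a ≤ (5 * η / 6) * L := by
        have h7 : (5 * η / 6) * L0 = 3 + a := by rw [hL0]; field_simp
        have h8 : (5 * η / 6) * L0 ≤ (5 * η / 6) * L := mul_le_mul_of_nonneg_left hbig (by positivity)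
        linarith
      rw [hR]
      linarith
    have hlog0 : 0 ≤ Real.log n := Real.log_nonneg hn1
    have hR3 : 3 ≤ R := by linarith
    have hR0 : 0 < R := by linarith
    set k : ℕ := ⌊θ * L / 250⌋₊ with hk
    have hk1 : (k : ℝ) ≤ θ * L / 250 := Nat.floor_le (by positivity)
    have hk2 : θ * L / 250 - 1 ≤ k := by
      have := Nat.lt_floor_add_one (θ * L / 250)
      linarith
    have hg := hgeo Γ N hN R hRn z0 z0_mem
    have hTg : (0 : ℝ) ≤ Cg * Real.exp (δ / 2 * R) := by positivity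
    -- size of the entries
    have hsize : 4 * Real.exp ((R + 250 * k + 1) / 2) ≤ T := by
      have h1 : (R + 250 * k + 1) / 2 ≤ L - Real.log 4 := by
        rw [hR, ha]; linarith
      calc 4 * Real.exp ((R + 250 * k + 1) / 2) ≤ 4 * Real.exp (L - Real.log 4) := by gcongr
        _ = T := by
            rw [Real.exp_sub, hexpL, Real.exp_log (by norm_num)]; ring
    have hbvR : Real.exp R / 8 ≤ bv R := bv_lower hR3
    have hBfew : ∀ p ∈ B, (num Γ (R + 250 * k + 1) p.1 p.2 : ℝ) ≤ bv R / (n * V) := by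
      intro p hp
      rw [hBdef, Finset.mem_filter] at hp
      have h1 : (num Γ (R + 250 * k + 1) p.1 p.2 : ℝ) ≤ nm Γ T p.1 p.2 := by
        exact_mod_cast num_le_nm Γ hsize p.1 p.2
      refine h1.trans (hp.2.le.trans ?_)
      have h2 : Real.exp R = T ^ (2 - θ) * Real.exp (-a) := by
        rw [Real.rpow_def_of_pos hT0, ← Real.exp_add, hR, ← hL]
        congr 1; ring
      have h3 : T ^ (2 - η) ≤ T ^ (2 - θ) :=
        Real.rpow_le_rpow_of_exponent_le hT1 (by rw [hθ]; linarith)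
      have h4 : T ^ (2 - η) / (C * n) ≤ T ^ (2 - θ) / (C3 * n) := by
        have : C3 ≤ C := by rw [hC]; linarith
        gcongr
      refine h4.trans ?_
      rw [div_le_div_iff₀ (by positivity) (by positivity)]
      have h5 : T ^ (2 - θ) = Real.exp R * Real.exp a := by
        rw [h2, mul_assoc, ← Real.exp_add]; simp
      calc T ^ (2 - θ) * (n * V) = (Real.exp R / 8) * (C3 * n) := by
            rw [h5, hC3]; ring
        _ ≤ bv R * (C3 * n) := by gcongr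
    have hc := core' (bdd fin) one two hCb hκ hκ1 hbes hcon hN.1 hN.2.1 hR0 k hTg hg B hBfew
    have hpk : (1 - κ) ^ k ≤ Real.exp q * T ^ (-(2 * δ)) := by
      have h1 : (1 - κ) ^ k = Real.exp (-q * k) := by
        rw [hq, neg_neg, mul_comm, Real.exp_nat_mul, Real.exp_log (by linarith)]
      rw [h1, Real.rpow_def_of_pos hT0, ← Real.exp_add, ← hL]
      apply Real.exp_le_exp.2
      have h2 : q * (θ * L / 250 - 1) ≤ q * k := mul_le_mul_of_nonneg_left hk2 hq0.le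
      have h3 : L * -(2 * δ) = -(q * (θ * L / 250)) := by rw [hδ]; ring
      rw [h3]
      linarith
    have hgT : Real.exp (δ / 2 * R) ≤ T ^ δ := by
      rw [Real.rpow_def_of_pos hT0, ← hL]
      apply Real.exp_le_exp.2
      have h1 : R ≤ 2 * L := by
        rw [hR]; nlinarith
      nlinarith
    calc (B.card : ℝ) ≤ Cb * V ^ 2 * n ^ 2 * (1 - κ) ^ k * (Cg * Real.exp (δ / 2 * R)) := hc
      _ ≤ Cb * V ^ 2 * n ^ 2 * (Real.exp q * T ^ (-(2 * δ))) * (Cg * T ^ δ) := by gcongr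
      _ = C1 * n ^ 2 * (T ^ (-(2 * δ)) * T ^ δ) := by rw [hC1]; ring
      _ = C1 * n ^ 2 * T ^ (-δ) := by
          rw [← Real.rpow_add hT0]; congr 2; ring
      _ ≤ C * n ^ 2 * T ^ (-δ) := by
          have : C1 ≤ C := by rw [hC]; linarith
          gcongr
  · -- small `T`
    rw [not_le] at hbig
    have h1 : (B.card : ℝ) ≤ n ^ 2 := by
      have h2 : B.card ≤ Fintype.card ((SL(2, ℤ) ⧸ Γ) × (SL(2, ℤ) ⧸ Γ)) := Finset.card_le_univ B
      rw [Fintype.card_prod] at h2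
      have h3 : Fintype.card (SL(2, ℤ) ⧸ Γ) = Γ.index := by
        rw [Subgroup.index, Nat.card_eq_fintype_card]
      rw [h3] at h2
      rw [pow_two, hn]
      exact_mod_cast h2
    have h4 : 1 ≤ C2 * T ^ (-δ) := by
      rw [Real.rpow_def_of_pos hT0, ← hL, hC2, ← Real.exp_add]
      apply Real.one_le_exp
      nlinarith
    calc (B.card : ℝ) ≤ n ^ 2 * 1 := by rw [mul_one]; exact h1
      _ ≤ n ^ 2 * (C2 * T ^ (-δ)) := by gcongr
      _ = C2 * n ^ 2 * T ^ (-δ) := by ring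
      _ ≤ C * n ^ 2 * T ^ (-δ) := by
          have : C2 ≤ C := by rw [hC]; linarith
          gcongr

/-- the number of matrices with entries at most `T` -/
theorem mat_count (ε : ℝ) (hε : 0 < ε) : ∃ C : ℝ, 0 < C ∧ ∀ T : ℝ, 1 ≤ T →
    (({γ : SL(2, ℤ) | ∀ i j, |((γ i j : ℤ) : ℝ)| ≤ T}.ncard : ℕ) : ℝ) ≤ C * T ^ (2 + ε) := by
  classical
  obtain ⟨C, hC, h⟩ := count_all ε hε
  refine ⟨2 + C * (2 ^ ε * 6), by positivity, fun T hT1 => ?_⟩
  have hT0 : 0 < T := by linarith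
  have hsub : {γ : SL(2, ℤ) | ∀ i j, |((γ i j : ℤ) : ℝ)| ≤ T} ⊆ {γ | mnorm γ ≤ 2 * T} :=
    fun γ hγ => mnorm_le (by linarith) hγ
  have hfin := finite_ent T
  set s : Finset SL(2, ℤ) := hfin.toFinset.filter fun δ => δ ≠ 1 ∧ δ ≠ -1 with hs
  have h1 : hfin.toFinset ⊆ s ∪ {1, -1} := by
    intro δ hδ
    rw [Finset.mem_union, hs, Finset.mem_filter]
    by_cases h2 : δ ≠ 1 ∧ δ ≠ -1
    · exact Or.inl ⟨hδ, h2⟩
    · right
      rw [Finset.mem_insert, Finset.mem_singleton]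
      tauto
  have h2 : hfin.toFinset.card ≤ s.card + 2 :=
    (Finset.card_le_card h1).trans ((Finset.card_union_le _ _).trans
      (add_le_add_right Finset.card_le_two _))
  have h3 := h ⊤ 1 level_top (2 * T) (by linarith) s (by
    intro δ hδ
    rw [hs, Finset.mem_filter, hfin.mem_toFinset] at hδ
    exact ⟨hδ.2.1, hδ.2.2, hsub hδ.1⟩)
  simp only [fix_top, Subgroup.index_top, Nat.cast_one, one_mul, Finset.sum_const, nsmul_eq_mul,
    mul_one] at h3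
  have h4 : ((hfin.toFinset.card : ℕ) : ℝ) ≤ s.card + 2 := by exact_mod_cast h2
  rw [Set.ncard_eq_toFinset_card _ hfin]
  have h5 : 2 * T + (2 * T) ^ 2 ≤ 6 * T ^ 2 := by nlinarith
  have h6 : C * (2 * T) ^ ε * (2 * T + (2 * T) ^ 2) ≤ C * (2 ^ ε * 6) * T ^ (2 + ε) := by
    calc C * (2 * T) ^ ε * (2 * T + (2 * T) ^ 2) ≤ C * (2 * T) ^ ε * (6 * T ^ 2) := by gcongr
      _ = C * (2 ^ ε * 6) * (T ^ (2 : ℝ) * T ^ ε) := by
          rw [Real.mul_rpow (by norm_num) (by linarith), Real.rpow_two]; ring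
      _ = C * (2 ^ ε * 6) * T ^ (2 + ε) := by rw [← Real.rpow_add hT0]
  have h7 : 1 ≤ T ^ (2 + ε) := Real.one_le_rpow hT1 (by linarith)
  have h8 : (2 + C * (2 ^ ε * 6)) * T ^ (2 + ε) =
      2 * T ^ (2 + ε) + C * (2 ^ ε * 6) * T ^ (2 + ε) := by ring
  rw [h8]
  linarith

lemma sum_nm (Γ : Subgroup SL(2, ℤ)) [Fintype (SL(2, ℤ) ⧸ Γ)] (T : ℝ) (x : SL(2, ℤ) ⧸ Γ) :
    ∑ y, nm Γ T x y = {γ : SL(2, ℤ) | ∀ i j, |((γ i j : ℤ) : ℝ)| ≤ T}.ncard := by
  classical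
  have hf := finite_ent T
  rw [Set.ncard_eq_toFinset_card _ hf,
    Finset.card_eq_sum_card_fiberwise (f := fun γ : SL(2, ℤ) => γ • x) (t := Finset.univ)
      (fun _ _ => Finset.mem_univ _)]
  refine Finset.sum_congr rfl fun y _ => ?_
  rw [nm_eq]
  have h : {γ : SL(2, ℤ) | (∀ i j, |((γ i j : ℤ) : ℝ)| ≤ T) ∧ γ • x = y} =
      ((hf.toFinset.filter fun γ => γ • x = y : Finset SL(2, ℤ)) : Set SL(2, ℤ)) := by
    ext γ
    simp
  rw [h, Set.ncard_coe_finset]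

/-- few pairs are joined by too many matrices -/
theorem upp (η : ℝ) (hη : 0 < η) : ∃ C : ℝ, 0 < C ∧
    ∀ Γ : Subgroup SL(2, ℤ), (∃ N : ℕ, 0 < N ∧ Gamma N ≤ Γ) → ∀ T : ℝ, 1 ≤ T →
    (Nat.card {p : (SL(2, ℤ) ⧸ Γ) × (SL(2, ℤ) ⧸ Γ) //
        T ^ (2 + η) / Γ.index < (nm Γ T p.1 p.2 : ℝ)} : ℝ) ≤
      C * (Γ.index : ℝ) ^ 2 * T ^ (-(η / 2)) := by
  classical
  obtain ⟨C, hC, hcount⟩ := mat_count (η / 2) (by positivity)
  refine ⟨C, hC, ?_⟩
  rintro Γ ⟨N, hN, hle⟩ T hT1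
  have hNz : NeZero N := ⟨hN.ne'⟩
  have hfi : Γ.FiniteIndex := Subgroup.finiteIndex_of_le hle
  have hfin : Finite (SL(2, ℤ) ⧸ Γ) := Subgroup.finite_quotient_of_finiteIndex
  have hft : Fintype (SL(2, ℤ) ⧸ Γ) := Fintype.ofFinite _
  set n : ℝ := (Γ.index : ℝ) with hn
  have hn1 : 1 ≤ n := by
    rw [hn]; exact_mod_cast Nat.pos_of_ne_zero hfi.index_ne_zero
  have hn0 : 0 < n := by linarith
  have hT0 : 0 < T := by linarith
  set B : Finset ((SL(2, ℤ) ⧸ Γ) × (SL(2, ℤ) ⧸ Γ)) := Finset.univ.filter fun p =>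
    T ^ (2 + η) / n < (nm Γ T p.1 p.2 : ℝ) with hBdef
  have hcard : Nat.card {p : (SL(2, ℤ) ⧸ Γ) × (SL(2, ℤ) ⧸ Γ) //
      T ^ (2 + η) / n < (nm Γ T p.1 p.2 : ℝ)} = B.card := by
    rw [Nat.card_eq_fintype_card, Fintype.card_subtype]
  rw [hcard]
  have h1 : (B.card : ℝ) * (T ^ (2 + η) / n) ≤ n * (C * T ^ (2 + η / 2)) := by
    calc (B.card : ℝ) * (T ^ (2 + η) / n) = ∑ _p ∈ B, T ^ (2 + η) / n := by
          rw [Finset.sum_const, nsmul_eq_mul]
      _ ≤ ∑ p ∈ B, (nm Γ T p.1 p.2 : ℝ) :=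
          Finset.sum_le_sum fun p hp => (Finset.mem_filter.1 hp).2.le
      _ ≤ ∑ p : (SL(2, ℤ) ⧸ Γ) × (SL(2, ℤ) ⧸ Γ), (nm Γ T p.1 p.2 : ℝ) :=
          Finset.sum_le_sum_of_subset_of_nonneg (Finset.subset_univ _) fun p _ _ => by positivity
      _ = ∑ x, ∑ y, (nm Γ T x y : ℝ) := Fintype.sum_prod_type _
      _ = ∑ _x : SL(2, ℤ) ⧸ Γ, (({γ : SL(2, ℤ) | ∀ i j, |((γ i j : ℤ) : ℝ)| ≤ T}.ncard : ℕ) : ℝ) := by
          refine Finset.sum_congr rfl fun x _ => ?_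
          rw [← sum_nm Γ T x]
          push_cast
          rfl
      _ = n * (({γ : SL(2, ℤ) | ∀ i j, |((γ i j : ℤ) : ℝ)| ≤ T}.ncard : ℕ) : ℝ) := by
          have h3 : Fintype.card (SL(2, ℤ) ⧸ Γ) = Γ.index := by
            rw [Subgroup.index, Nat.card_eq_fintype_card]
          rw [Finset.sum_const, nsmul_eq_mul, Finset.card_univ, h3]
      _ ≤ n * (C * T ^ (2 + η / 2)) := mul_le_mul_of_nonneg_left (hcount T hT1) hn0.le
  have hT2 : T ^ (2 + η) = T ^ (2 + η / 2) * T ^ (η / 2) := by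
    rw [← Real.rpow_add hT0]; congr 1; ring
  have h2 : 0 < T ^ (2 + η / 2) := Real.rpow_pos_of_pos hT0 _
  have h3 : 0 < T ^ (η / 2) := Real.rpow_pos_of_pos hT0 _
  rw [Real.rpow_neg hT0.le]
  have h4 : (B.card : ℝ) * T ^ (η / 2) ≤ C * n ^ 2 := by
    have h5 : (B.card : ℝ) * T ^ (η / 2) * T ^ (2 + η / 2) ≤ C * n ^ 2 * T ^ (2 + η / 2) := by
      calc (B.card : ℝ) * T ^ (η / 2) * T ^ (2 + η / 2)
          = (B.card : ℝ) * (T ^ (2 + η) / n) * n := by rw [hT2]; field_simp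
        _ ≤ n * (C * T ^ (2 + η / 2)) * n := mul_le_mul_of_nonneg_right h1 hn0.le
        _ = _ := by ring
    exact le_of_mul_le_mul_right h5 h2
  rw [← div_eq_mul_inv, le_div_iff₀ h3]
  exact h4

end

end Pool.Agent.H382.SA
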