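import Pool.Agent.H382.SA.Diam

/-!
# Strong approximation with the correct number of matrices, for all congruence subgroups

Let `Γ` be a congruence subgroup of `SL(2,ℤ)` of index `n`. There are about `T ^ 2` matrices in
`SL(2,ℤ)` with entries at most `T`, so that a pair `(x, y)` of cosets should be joined by about
`T ^ 2 / n` of them, as soon as `T` is larger than `n ^ (1/2)`. This is what Selberg's eigenvalue
conjecture would give for almost all pairs. We prove it without any hypothesis, up to `T ^ η`, for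
ALL congruence subgroups, uniformly in the subgroup and in `T`, and we deduce a bound for the
entries of a matrix which joins two GIVEN cosets of a normal congruence subgroup.
-/

set_option autoImplicit false

open CongruenceSubgroup
open scoped MatrixGroups

namespace Pool.Agent.H382.SA.Main

/-- **Counting in strong approximation for all congruence subgroups.** Write `n` for the index of a
congruence subgroup `Γ` of `SL(2,ℤ)`, and `m(T, x, y)` for the number of the `γ` in `SL(2,ℤ)` with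
all entries at most `T` in absolute value such that `γ x = y`, for `x, y` in `SL(2,ℤ) ⧸ Γ`.

1. For every `0 < η ≤ 1` there are `δ > 0` and `C` such that for EVERY congruence subgroup and
EVERY `T ≥ n ^ (1/2 + η)` all but at most `C n ^ 2 T ^ (-δ)` of the `n ^ 2` pairs satisfy
`m(T, x, y) ≥ T ^ (2 - η) / (C n)`, and all but at most `C n ^ 2 T ^ (-δ)` of them satisfy
`m(T, x, y) ≤ T ^ (2 + η) / n`.
2. The range of `T` is the right one: for `0 < ε < 1/2` there is a `C` such that for every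
congruence subgroup and every `x` at most `C n ^ (1 - ε)` cosets `y` have
`m(n ^ (1/2 - ε), x, y) > 0`.
3. For every `0 < η ≤ 1` there are `δ > 0` and `C` such that for EVERY congruence subgroup there is
a set `E` of at most `C n ^ (1 - δ)` cosets such that ALL pairs outside `E` are joined by a matrix
with entries at most `C n ^ (1 + η)`; and if `Γ` is normal, then ALL pairs of cosets are. -/
theorem result :
    (∀ η : ℝ, 0 < η → η ≤ 1 → ∃ δ : ℝ, 0 < δ ∧ ∃ C : ℝ, 0 < C ∧ ∀ Γ : Subgroup SL(2, ℤ),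
      (∃ N : ℕ, 0 < N ∧ Gamma N ≤ Γ) → ∀ T : ℝ, (Γ.index : ℝ) ^ (1 / 2 + η) ≤ T →
      (Nat.card {p : (SL(2, ℤ) ⧸ Γ) × (SL(2, ℤ) ⧸ Γ) //
          (Nat.card {γ : SL(2, ℤ) // (∀ i j, |((γ i j : ℤ) : ℝ)| ≤ T) ∧ γ • p.1 = p.2} : ℝ) <
            T ^ (2 - η) / (C * Γ.index)} : ℝ) ≤ C * (Γ.index : ℝ) ^ 2 * T ^ (-δ) ∧
      (Nat.card {p : (SL(2, ℤ) ⧸ Γ) × (SL(2, ℤ) ⧸ Γ) //
          T ^ (2 + η) / Γ.index <
            (Nat.card {γ : SL(2, ℤ) // (∀ i j, |((γ i j : ℤ) : ℝ)| ≤ T) ∧ γ • p.1 = p.2} : ℝ)} :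
              ℝ) ≤ C * (Γ.index : ℝ) ^ 2 * T ^ (-δ)) ∧
    (∀ ε : ℝ, 0 < ε → ε < 1 / 2 → ∃ C : ℝ, 0 < C ∧ ∀ Γ : Subgroup SL(2, ℤ),
      (∃ N : ℕ, 0 < N ∧ Gamma N ≤ Γ) → ∀ x : SL(2, ℤ) ⧸ Γ,
      (Nat.card {y : SL(2, ℤ) ⧸ Γ // ∃ γ : SL(2, ℤ),
          (∀ i j, |((γ i j : ℤ) : ℝ)| ≤ (Γ.index : ℝ) ^ (1 / 2 - ε)) ∧ γ • x = y} : ℝ) ≤
        C * (Γ.index : ℝ) ^ (1 - ε)) ∧
    (∀ η : ℝ, 0 < η → η ≤ 1 → ∃ δ : ℝ, 0 < δ ∧ ∃ C : ℝ, 0 < C ∧ ∀ Γ : Subgroup SL(2, ℤ),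
      (∃ N : ℕ, 0 < N ∧ Gamma N ≤ Γ) →
      (∃ E : Set (SL(2, ℤ) ⧸ Γ), (E.ncard : ℝ) ≤ C * (Γ.index : ℝ) ^ (1 - δ) ∧
        ∀ x ∉ E, ∀ y ∉ E, ∃ γ : SL(2, ℤ),
          (∀ i j, |((γ i j : ℤ) : ℝ)| ≤ C * (Γ.index : ℝ) ^ (1 + η)) ∧ γ • x = y) ∧
      (Γ.Normal → ∀ x y : SL(2, ℤ) ⧸ Γ, ∃ γ : SL(2, ℤ),
          (∀ i j, |((γ i j : ℤ) : ℝ)| ≤ C * (Γ.index : ℝ) ^ (1 + η)) ∧ γ • x = y)) := by
  refine ⟨fun η hη hη1 => ?_, Pool.Agent.N799.OL.few, Pool.Agent.H382.SA.diam⟩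
  obtain ⟨δ, hδ, C, hC, h⟩ := Pool.Agent.H382.SA.low η hη hη1
  obtain ⟨D, hD, g⟩ := Pool.Agent.H382.SA.upp η hη
  refine ⟨min δ (η / 2), by positivity, C + D, by positivity, fun Γ hΓ T hT => ?_⟩
  obtain ⟨N, hN, hle⟩ := hΓ
  have hNz : NeZero N := ⟨hN.ne'⟩
  have hfi : Γ.FiniteIndex := Subgroup.finiteIndex_of_le hle
  have hfin : Finite (SL(2, ℤ) ⧸ Γ) := Subgroup.finite_quotient_of_finiteIndex
  have hn1 : (1 : ℝ) ≤ Γ.index := by
    have : Γ.index ≠ 0 := hfi.index_ne_zero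
    exact_mod_cast Nat.one_le_iff_ne_zero.mpr this
  have hn0 : (0 : ℝ) < Γ.index := by linarith
  have hT1 : 1 ≤ T := (Real.one_le_rpow hn1 (by linarith)).trans hT
  have hT0 : 0 < T := by linarith
  constructor
  · have h1 := h Γ ⟨N, hN, hle⟩ T hT
    refine le_trans ?_ (h1.trans ?_)
    · have hf : Finite {p : (SL(2, ℤ) ⧸ Γ) × (SL(2, ℤ) ⧸ Γ) //
          (Pool.Agent.H382.SA.nm Γ T p.1 p.2 : ℝ) < T ^ (2 - η) / (C * Γ.index)} := inferInstance
      refine Nat.cast_le.mpr (Nat.card_le_card_of_injective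
        (fun p => ⟨p.1, lt_of_lt_of_le p.2 ?_⟩) ?_)
      · refine div_le_div_of_nonneg_left (Real.rpow_nonneg hT0.le _) (by positivity) ?_
        exact mul_le_mul_of_nonneg_right (by linarith) hn0.le
      · intro a b hab
        simpa [Subtype.ext_iff] using hab
    · have e1 : T ^ (-δ) ≤ T ^ (-(min δ (η / 2))) :=
        Real.rpow_le_rpow_of_exponent_le hT1 (neg_le_neg (min_le_left _ _))
      have e2 : C * (Γ.index : ℝ) ^ 2 ≤ (C + D) * (Γ.index : ℝ) ^ 2 :=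
        mul_le_mul_of_nonneg_right (by linarith) (by positivity)
      exact mul_le_mul e2 e1 (Real.rpow_nonneg hT0.le _) (by positivity)
  · have h1 := g Γ ⟨N, hN, hle⟩ T hT1
    refine h1.trans ?_
    have e1 : T ^ (-(η / 2)) ≤ T ^ (-(min δ (η / 2))) :=
      Real.rpow_le_rpow_of_exponent_le hT1 (neg_le_neg (min_le_right _ _))
    have e2 : D * (Γ.index : ℝ) ^ 2 ≤ (C + D) * (Γ.index : ℝ) ^ 2 :=
      mul_le_mul_of_nonneg_right (by linarith) (by positivity)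
    exact mul_le_mul e2 e1 (Real.rpow_nonneg hT0.le _) (by positivity)

end Pool.Agent.H382.SA.Main
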